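import Pool.Agent.Q253.NF.Stm2
import Pool.Agent.Q253.LM.Stm

set_option autoImplicit false

/-!
# Project NF (helper253), third part: archimedean places, group theory, means and contour integrals

Definitions and jobs.
-/

namespace Pool.Agent.Q253.NF

open MeasureTheory Filter Topology Set Complex NumberField IsDedekindDomain
open Pool.Agent.Q92.AR (Unramified frob Continues LP artinL fixer)
open Pool.Agent.Q92.RT (induced)
open Pool.Agent.H541R3.ART (Irr)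
open Pool.Agent.Q253.LQ (I0)
open Pool.Agent.Q253.LM (NoRel IdxM)
open scoped ComplexConjugate

/-- `D` is the Dedekind zeta function of `E` (the conclusion of `S_DED`) -/
structure IsDed (E : Type) [Field E] [NumberField E] (D : Dat) : Prop where
  p : D.p = 1
  sum : ∀ u, D.E u = ks (univ : Set (HeightOneSpectrum (𝓞 E))) (fun _ _ => 1) u
  X : ∃ c : ℂ, c ≠ 0 ∧ ∀ z : ℂ, 1 / 2 < z.re → D.X z = c * xiF E (1 / 2 + z)
  cont : ∃ f, Continues f (dedekindZeta E)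
  ord : ∀ f : ℂ → ℂ, Continues f (dedekindZeta E) → ∀ s : ℂ, 0 < s.re →
    meromorphicOrderAt f s = (((D.m (s - 1 / 2) : ℤ) - (if s = 1 then 1 else 0) : ℤ) : WithTop ℤ)
  ev : ∃ ε : ℂ, ε ≠ 0 ∧ ∀ z : ℂ, D.X (-z) = ε * D.X z
  m_neg : ∀ a : ℂ, D.m (-a) = D.m a

/-- **Job ENT.** The quotient of two Dedekind zeta functions is entire iff this holds in the strip.
Proof.  Let `a = r₁ + r₂` and `b = r₂` (numbers of real and complex places); `Γ_ℂ(s) = Γ_ℝ(s) Γ_ℝ(s+1)`, so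
`xiF E s = s (s-1) |d|^(s/2) Γ_ℝ(s)^(a E) Γ_ℝ(s+1)^(b E) ζ_E(s)`.  One has `a K ≤ a L` and `b K ≤ b L`: the restriction of infinite
places is onto (`InfinitePlace.comap_surjective`), and places above complex ones are complex.
(⇐) If `DK.m ≤ DL.m` then `Q = DL.X/DK.X` extends to an entire function (removable singularities; e.g. the meromorphic normal form of the
quotient has no poles), and for `Re s > 1` `ζ_L/ζ_K = c Q(s - 1/2) (|d_K|/|d_L|)^(s/2) (1/Γ_ℝ(s))^(a L - a K) (1/Γ_ℝ(s+1))^(b L - b K)`, and `1/Γ_ℝ`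
is entire (`differentiable_Gammaℝ_inv`).
(⇒) Let `f_K`, `f_L` be the continuations (`IsDed.cont`); `g f_K` and `f_L` are continuations of the same function, so by
`Pool.Agent.Q92.AR.Continues.order_eq` and `IsDed.ord` `ord g + DK.m (s - 1/2) = DL.m (s - 1/2)` for `Re s > 0`, and `ord g ≥ 0`.  So
`DK.m a ≤ DL.m a` for `Re a > -1/2`; for `Re a ≤ -1/2` use `m_neg`. -/
def S_ENT : Prop := ∀ (K L : Type) [Field K] [NumberField K] [Field L] [NumberField L] [Algebra K L] (DK DL : Dat),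
  IsDed K DK → IsDed L DL →
  ((∃ g : ℂ → ℂ, Differentiable ℂ g ∧ ∀ s : ℂ, 1 < s.re → g s = dedekindZeta L s / dedekindZeta K s) ↔
    ∀ a : ℂ, DK.m a ≤ DL.m a)

/-- **Job RAT.** The sum of the irreducible characters is a rational combination of permutation characters (Artin).
Proof.  `Q264.CM.artin` (file `Pool/Agent/Q264/CM/Grp.lean`): a rational function `f` on `G` with `RC f` (class function, equal values at generators
of the same cyclic subgroup) is a combination of the `perm (zpowers y)`, and `perm C g = induced C 1 g` (both count the cosets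
`x C` with `x⁻¹ g x ∈ C`).  So it suffices that `θ = ∑_χ χ` (finite sum, `Pool.Agent.H541R3.ART.irrF` or the like) is rational and constant on the
generators of cyclic subgroups.  An automorphism `σ` of `ℂ` permutes the irreducible characters (`σ ∘ χ` is the
character of the conjugate representation: apply `σ` to the matrices), so `σ (θ g) = θ g`; `θ g` is algebraic, so it is rational
(an algebraic number fixed by all automorphisms of `ℂ`, e.g. of the algebraic closure of `ℚ`, extended to `ℂ`).  If `h = g^k`, `k` prime to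
the order `n` of `g`, take `σ` with `σ ζ = ζ^k` for the `n`-th roots of unity `ζ` (an automorphism of the cyclotomic field, extended to
`ℂ`): `χ(g)` is a sum of `n`-th roots of unity, the eigenvalues, so `σ (χ g) = χ (g^k)`; hence `θ (g^k) = σ (θ g) = θ g`.
(Alternative for the rationality and the constancy: `∑_χ χ(g) = ∑_χ χ(g^k)` by Galois theory over `ℚ(ζ_N)`.)  Search the package for lemmas on
Galois conjugates of characters first. -/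
def S_RAT : Prop := ∀ (G : Type) [Group G] [Finite G], ∃ r : Subgroup G → ℚ, ∀ g : G,
  ∑ᶠ χ ∈ Irr G, χ g = ∑ᶠ H : Subgroup G, (r H : ℂ) * induced H (1 : H →* ℂˣ) g

/-- **Job KT.** The circle function.
Proof.  For one `D` with `Re z > 1/2`: by `S_PF` (`w = -z`) `logDeriv X z - logDeriv X (-z) = ∑ m(a) (1/(z-a) + 1/(z+a)) = ∑ m(a) 2z/(z²-a²)`, and by
`X(-z) = ε X(z)` `logDeriv X` is odd; so `logDeriv X z = z ∑ m(a)/(z²-a²)`, and the sum is over the `a = iγ` only.  For `‖t‖ = 1/2`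
`z = (1-t)^(1/2)` (principal value) has `Re z > 1/2` and `z² = 1 - t`, `1/(z² - a²) = 1/(1+γ²-t)`.  Sum over `i`. -/
def S_KT : Prop := S_PF → ∀ (ι : Type) [Fintype ι] (D : ι → Dat) (r : ι → ℚ) (N : ℝ → ℕ),
  (∀ i, ∃ ε : ℂ, ε ≠ 0 ∧ ∀ z : ℂ, (D i).X (-z) = ε * (D i).X z) → (∀ i, ∀ a : ℂ, a.re ≠ 0 → (D i).m a = 0) →
  (∀ γ : ℝ, ∑ i, r i * ((D i).m (γ * I) : ℚ) = N γ) → ∀ t : ℂ, ‖t‖ = 1 / 2 →
  1 / 2 < ((1 - t) ^ (1 / 2 : ℂ)).re ∧
  (1 - t) ^ (-(1 / 2) : ℂ) * ∑ i, (r i : ℂ) * logDeriv (D i).X ((1 - t) ^ (1 / 2 : ℂ)) =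
    ∑' γ : ℝ, (N γ : ℂ) / (1 + (γ : ℂ) ^ 2 - t)

/-- **Job MSQ.** Mean squares.
Proof.  Let `w(γ) = nn D n (γ I) · 2/(1+γ²)`.  Under `Hyp` `S_VF` and `S_EF` give `F(u) = -∑ w(γ) e^(iγu) + O(e^(-u/4))`, `∑ |w| < ∞`: bounded, and `S_MS`
gives the limits.  Conversely, if the mean square is bounded then `∫_0^U ‖PP‖ ≤ ∫ ‖F‖ + C ≤ (U ∫ ‖F‖²)^(1/2) + C ≤ C' U` (Cauchy-Schwarz, or
`‖F‖ ≤ (1 + ‖F‖²)/2`), and `S_LA`.  The last part (`n² - n ≥ 0` for integers, `S_VF`: `∑ n_i V_i = ∑ n(γ) c(γ)²`) is comparison of series. -/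
def S_MSQ : Prop := S_PF → S_EF → S_LA → S_MS → S_VF → ∀ (ι : Type) [Fintype ι] (D : ι → Dat) (n : ι → ℤ) (F : ℝ → ℂ),
  Continuous F → (∃ C : ℝ, ∀ u : ℝ, 0 ≤ u → ‖F u - PP D n u‖ ≤ C * Real.exp (-(u / 4))) →
  (Hyp D n ↔ ∃ C : ℝ, ∀ᶠ U : ℝ in atTop, (1 / U) * ∫ u in (0 : ℝ)..U, ‖F u‖ ^ 2 ≤ C) ∧
  (Hyp D n → Summable (fun γ : ℝ => ((nn D n (γ * I) : ℝ) * (2 / (1 + γ ^ 2))) ^ 2) ∧
    Summable (fun γ : ℝ => (nn D n (γ * I) : ℝ) * ((nn D n (γ * I) : ℝ) - 1) * (2 / (1 + γ ^ 2)) ^ 2) ∧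
    Tendsto (fun U : ℝ => (1 / U) * ∫ u in (0 : ℝ)..U, ‖F u‖ ^ 2) atTop
      (𝓝 (∑' γ : ℝ, ((nn D n (γ * I) : ℝ) * (2 / (1 + γ ^ 2))) ^ 2)) ∧
    ∑' γ : ℝ, ((nn D n (γ * I) : ℝ) * (2 / (1 + γ ^ 2))) ^ 2 = ∑ i, (n i : ℝ) * (D i).V +
      ∑' γ : ℝ, (nn D n (γ * I) : ℝ) * ((nn D n (γ * I) : ℝ) - 1) * (2 / (1 + γ ^ 2)) ^ 2 ∧
    (∀ t : ℝ, Tendsto (fun U : ℝ => ((1 / U : ℝ) : ℂ) * ∫ u in (0 : ℝ)..U, -F u * cexp (-(I * t * u))) atTop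
      (𝓝 (((nn D n (t * I) : ℝ) * (2 / (1 + t ^ 2)) : ℝ) : ℂ))) ∧
    ∃ C : ℝ, ∀ u : ℝ, 0 ≤ u →
      ‖-F u - ∑' γ : ℝ, (((nn D n (γ * I) : ℝ) * (2 / (1 + γ ^ 2)) : ℝ) : ℂ) * cexp (I * γ * u)‖ ≤ C * Real.exp (-(u / 4)))

/-- the frequencies `γ` with the weights `N(γ) 2/(1+γ²)`: the assumptions on the function `f` -/
structure APF (N : ℝ → ℕ) (f : ℝ → ℝ) : Prop where
  even : ∀ γ, N (-γ) = N γ
  sum : Summable (fun γ : ℝ => (N γ : ℝ) / (1 + γ ^ 2))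
  cont : Continuous f
  exp : ∃ C : ℝ, ∀ u : ℝ, 0 ≤ u →
    ‖(f u : ℂ) - ∑' γ : ℝ, (((N γ : ℝ) * (2 / (1 + γ ^ 2)) : ℝ) : ℂ) * cexp (I * γ * u)‖ ≤ C * Real.exp (-(u / 4))

/-- the value of the exponential mean for independent frequencies, `K` the circle function -/
noncomputable def RR (K : ℂ → ℂ) (lam : ℝ) : ℝ :=
  Real.exp (1 / (4 * Real.pi * I) * ∮ t in C(0, 1 / 2), K t * Complex.log (I0 (4 * lam / t))).re

/-- the factor of a central zero -/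
noncomputable def gg (lam : ℝ) : ℝ := Real.exp (2 * lam) / Real.sqrt (I0 ((4 * lam : ℝ) : ℂ)).re

/-- **Job EXPM.** The exponential mean.
Proof.  As in `Pool/Agent/Q253/LH/F*.lean` and `Pool/Agent/Q253/LQ/F*.lean`, with `t_MV` (`Pool/Agent/Q151/LQ/MV.lean`) for
`ι = IdxM N`, `g i = i.1`, `c i = 2/(1+γ²)`, `κ = 2 N(0)`, `r = f - (κ + ∑ 2 c_i cos (g_i u))` (the sum over all real `γ` is `2 N(0)` plus twice
the real part of the sum over `γ > 0`; the value at negative `u` does not matter, change `r` to `0` there), and `t_CT` for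
`m = N`: `log RR = (1/2) ∑_γ N(γ) log I0(4 lam/(1+γ²))`, so `RR = I0(4 lam)^(N(0)/2) ∏_i I0(2 lam c_i)`, and the lower bound of `t_MV` is
`exp(2 lam N(0)) ∏_i I0(2 lam c_i) = RR gg^N(0)`.  `gg > 1` as `I0(x) < e^x` for `x > 0`; so `RR gg^m ≤ RR gg^N(0)` with equality iff
`N(0) = m`. -/
def S_EXPM : Prop := ∀ (N : ℝ → ℕ) (f : ℝ → ℝ) (K : ℂ → ℂ) (lam : ℝ) (m : ℕ), APF N f →
  (∀ t : ℂ, ‖t‖ = 1 / 2 → K t = ∑' γ : ℝ, (N γ : ℂ) / (1 + (γ : ℂ) ^ 2 - t)) → 0 < lam → lam ≤ 1 / 8 → m ≤ N 0 →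
  ((N 0 = m ∧ LinearIndependent ℚ (fun i : IdxM N => (i.1 : ℝ))) ↔ ∀ ε : ℝ, 0 < ε → ∀ᶠ U : ℝ in atTop,
    (1 / U) * ∫ u in (0 : ℝ)..U, Real.exp (lam * f u) ≤ RR K lam * gg lam ^ m + ε) ∧
  ((N 0 = m ∧ LinearIndependent ℚ (fun i : IdxM N => (i.1 : ℝ))) ↔
    Tendsto (fun U : ℝ => (1 / U) * ∫ u in (0 : ℝ)..U, Real.exp (lam * f u)) atTop (𝓝 (RR K lam * gg lam ^ m))) ∧
  ∀ ε : ℝ, 0 < ε → ∀ᶠ U : ℝ in atTop,
    RR K lam * gg lam ^ m - ε ≤ (1 / U) * ∫ u in (0 : ℝ)..U, Real.exp (lam * f u)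

open Classical in
/-- the sum over `γ_1 + ... + γ_k = 0`, all `γ_j ≠ 0` in the support of `N`, with multiplicity -/
noncomputable def TN (N : ℝ → ℕ) (k : ℕ) : ℝ :=
  ∑' s : Fin k → ℝ, if ∑ l, s l = 0 ∧ ∀ l, s l ≠ 0 then ∏ l, (N (s l) : ℝ) * (2 / (1 + s l ^ 2)) else 0

/-- **Job MOMT.** The moments.
Proof.  As in `Pool/Agent/Results/MP_0f5a55_nt/AbelianRelationsByLength.lean`, `Pool/Agent/Q253/LM/F*.lean`: `t_MN`, `t_TR`, `t_GF`, `t_TC`, `t_TT`, `t_RL`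
(`Pool/Agent/Q38/LM/MN.lean`, `Pool/Agent/Q68/LM/*.lean`, `Pool/Agent/Q223/LM/TC.lean`) for `ι = IdxM N`, `c i = 2/(1+γ²)`; apply `t_TT` to
`N` with the value `0` at `0`.  `f - 2 N(0) = ∑ 2 c_i cos(g_i u) + r`.  `RR(lam)/I0(4 lam)^(N(0)/2) = ∏_i I0(2 lam c_i)` for `0 < lam ≤ 1/8` by `t_CT`,
and both sides are even in `lam`.  The last part: `t_LI`. -/
def S_MOMT : Prop := ∀ (N : ℝ → ℕ) (f : ℝ → ℝ) (K : ℂ → ℂ), APF N f →
  (∀ t : ℂ, ‖t‖ = 1 / 2 → K t = ∑' γ : ℝ, (N γ : ℂ) / (1 + (γ : ℂ) ^ 2 - t)) →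
  (Tendsto (fun U : ℝ => (1 / U) * ∫ u in (0 : ℝ)..U, f u) atTop (𝓝 (2 * (N 0 : ℝ)))) ∧
  ∀ k : ℕ, Tendsto (fun U : ℝ => (1 / U) * ∫ u in (0 : ℝ)..U, (f u - 2 * N 0) ^ k) atTop (𝓝 (TN N k)) ∧
    (Odd k → iteratedDeriv k (fun lam => RR K lam / Real.sqrt (I0 ((4 * lam : ℝ) : ℂ)).re ^ N 0) 0 = 0) ∧
    iteratedDeriv k (fun lam => RR K lam / Real.sqrt (I0 ((4 * lam : ℝ) : ℂ)).re ^ N 0) 0 ≤ TN N k ∧
    (TN N k = iteratedDeriv k (fun lam => RR K lam / Real.sqrt (I0 ((4 * lam : ℝ) : ℂ)).re ^ N 0) 0 ↔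
      NoRel (fun γ : {γ : ℝ // 0 < γ ∧ N γ ≠ 0} => (γ : ℝ)) k ∧ (Even k → 2 ≤ k → ∀ γ : ℝ, 0 < γ → N γ ≤ 1))

end Pool.Agent.Q253.NF
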