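import Mathlib

set_option autoImplicit false

/-!
# Project NF (helper253): prime sums for quotients of L-functions; one inequality for holomorphy, RH and simplicity

`Dat` is an L-function, `X(z)` the completed function at `1/2 + z` (entire, zeros in `|Re z| ≤ 1/2`), `S(z) = -L'/L(1/2+z)`
for `Re z > 1/2`, `E(u) = ∑ c(n) N^(-1/2) e^(-|u - log N|)` the sum over the prime powers, of Laplace transform
`2/(1-z²) S(z) - 1/(1-z) S(1)`, and `p` the order of the pole of `L` at `s = 1`.  For a finite family `D i` and integers `n i`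
we study `∏ L_i^(n i)`; `nn D n a` is its order at `1/2 + a`.

Definitions and jobs.
-/

namespace Pool.Agent.Q253.NF

open MeasureTheory Filter Topology Set Complex
open scoped ComplexConjugate

/-- an L-function -/
structure Dat where
  E : ℝ → ℂ
  S : ℂ → ℂ
  X : ℂ → ℂ
  A : ℝ
  m0 : ℕ
  m1 : ℕ
  p : ℕ
  cont : Continuous E
  lt : ∀ z : ℂ, 1 < z.re → IntegrableOn (fun u : ℝ => E u * cexp (-z * u)) (Ioi 0) ∧
    ∫ u in Ioi (0 : ℝ), E u * cexp (-z * u) = 2 / (1 - z ^ 2) * S z - 1 / (1 - z) * S 1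
  diff : Differentiable ℂ X
  sym : ∀ z : ℂ, X (-conj z) = conj (X z)
  gr : ∀ δ : ℝ, 0 < δ → ∃ K : ℝ, 0 < K ∧ ∀ z : ℂ, ‖X z‖ ≤ K * Real.exp (δ * ‖z‖ ^ 2)
  strip : ∀ z : ℂ, X z = 0 → |z.re| ≤ 1 / 2
  ld : ∀ z : ℂ, 1 / 2 < z.re → logDeriv X z = A + m0 * logDeriv Gammaℝ (1 / 2 + z) +
    m1 * logDeriv Gammaℝ (3 / 2 + z) + p * (1 / (z + 1 / 2) + 1 / (z - 1 / 2)) - S z

namespace Dat

variable (D : Dat)

/-- the multiplicity of the zero `a` -/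
noncomputable def m (a : ℂ) : ℕ := analyticOrderNatAt D.X a

/-- the sum over the prime powers without the main term -/
noncomputable def P (u : ℝ) : ℂ := D.E u - D.p * ((8 / 3 * Real.exp (u / 2) : ℝ) : ℂ)

/-- the sum over the zeros -/
noncomputable def Z (u : ℝ) : ℂ := ∑' a : ℂ, (D.m a : ℂ) * (2 / (1 - a ^ 2)) * cexp (a * u)

/-- the constant -/
noncomputable def V : ℝ := 2 * (logDeriv D.X 1 - deriv (logDeriv D.X) 1).re

end Dat

/-- **Job PF.** Partial fractions; the zeros are in the strip `|Re a| ≤ 1/2`, the growth is slower than all `exp (δ |z|²)`.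
Proof.  Adapt `Pool.Agent.Q151.LQ.had_step`, `had_pf`, `pf_gen` (file `Pool/Agent/Q151/LQ/PFg.lean`, zeros on the axis, growth
`exp (K |z|^(3/2))`) with `p = 1` (`X 1 ≠ 0` by `strip`).
(a) In `had_step` the growth enters only through the bound `M` of `log |X|` on the circle of radius `2 (N+1)` about `p`, and
`‖E z‖ ≤ 16 (M + |log ‖X p‖|) (‖z-p‖/(N+1))²`; take for `M = M_N` the logarithm of the maximum of `1 + ‖X‖` there; by `gr`
`M_N ≤ log (1+K_δ) + δ (1 + 2 (N+1))²` for every `δ`, so `M_N / (N+1)² → 0`, and `had_pf` goes through: `X` is the locally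
uniform limit of `X 1 ∏_{a ∈ S N} ((z-a)/(1-a))^m(a) exp (β_N (z-1))`, `S N` the zeros with `‖a - 1‖ ≤ N+1`.
(b) So for `|Re z| > 1/2` (no zeros there) `∑_{a ∈ S N} m(a)/(z-a) + β_N → logDeriv X z` (`hlim1` in `pf_gen`), and differences
as in `hlim2`.  For `z = 1`, `w = -1` the terms `1/(1-a) + 1/(1+a) = 2/(1-a²)` have real part `≥ (6/7)/(1+‖a‖²)` (with
`a = α + iγ`, `Q = 1 - α² + γ² ≥ 3/4`: `Re (1-a²) = Q`, `|1-a²|² = Q² + 4α²γ² ≤ Q² + γ² ≤ Q² + Q ≤ (7/3) Q²`, `Q ≤ 1 + ‖a‖²`), so the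
sums `∑_{a ∈ S N} m(a)/(1+‖a‖²)` are bounded: summability over all `a : ℂ`.  Then dominated convergence as in `hmain`
(`‖1/(z-a) - 1/(w-a)‖ ≤ C/(1+‖a‖²)` for `|Re a| ≤ 1/2`).
(c) The last part: differentiate (difference quotients and dominated convergence, as in `Pool.Agent.Q253.LC.deriv_log`, file
`Pool/Agent/Q253/LC/C7.lean`). -/
def S_PF : Prop := ∀ D : Dat, Summable (fun a : ℂ => (D.m a : ℝ) / (1 + ‖a‖ ^ 2)) ∧
  (∀ z w : ℂ, 1 / 2 < |z.re| → 1 / 2 < |w.re| → logDeriv D.X z - logDeriv D.X w =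
    ∑' a : ℂ, (D.m a : ℂ) * (1 / (z - a) - 1 / (w - a))) ∧
  HasDerivAt (logDeriv D.X) (∑' a : ℂ, (D.m a : ℂ) * (-1 / (1 - a) ^ 2)) 1

/-- **Job EF.** The explicit formula, with all zeros.
Proof.  Adapt `Pool/Agent/Q14/LQ/EF1.lean`, `EF2.lean`, `EF3.lean`, `EF4.lean` (the case of Dirichlet characters with all zeros on
the line; `lt_unique`, `XS`, `XS_int`, `TT`, `TT_pole`, `TT_const`, `TT_GR` are general and can be used: `TT_GR` with `a = 0` and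
with `a = 1` is the Gamma factor `m0` and `m1`).  Let `c(a) = 2/(1-a²)`.  `∑ m(a) |c(a)| < ∞` by `S_PF`, so `D.Z` is continuous and
`|D.Z u| ≤ C e^(u/2)` for `u ≥ 0`; its Laplace transform for `Re z > 1` is `∑ m(a) c(a)/(z-a)` (apply `XS_int` with exponents
`l = 1/2 - a`, which have `Re l ≥ 0`, and `z - 1/2` instead of `z`; the support is countable).  With `TT_pole` for `b = -a`:
`TT (1/(z-a)) = -(1/(1+a))/(1+z) + c(a)/(z-a)`; by `S_PF` with `w = 1`: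
`TT (logDeriv X)(z) = logDeriv X 1/(1+z) + ∑ m(a) TT (1/(·-a) - 1/(1-a)) = K'/(1+z) + ∑ m(a) c(a)/(z-a)` with a constant `K'`.
By `D.lt` and `D.ld` the transform of `E` is `TT S = -TT (logDeriv X) + TT (A + m0 .. + m1 .. + p (1/(z+1/2) + 1/(z-1/2)))`, and
`TT_pole` with `b = 1/2`, `b = -1/2` gives `-2/(1+z) + (8/3)/(z+1/2)` and `-(2/3)/(1+z) + (8/3)/(z-1/2)`.  So for `Re z > 1` the
transform of `D.P + D.Z` is `K/(1+z) + m0 ∑ dk 0 k/(bk 0 k + z) + m1 ∑ dk 1 k/(bk 1 k + z) + p (8/3)/(z+1/2)`, the transform of a sum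
of exponentials `e^(-lu)`, `l ≥ 1/2`, absolutely convergent for `u ≥ 0`.  Conclude by `lt_unique` on the line `Re z = 2`
(and continuity at `u = 0`). -/
def S_EF : Prop := ∀ D : Dat, ∃ C : ℝ, ∀ u : ℝ, 0 ≤ u → ‖D.P u + D.Z u‖ ≤ C * Real.exp (-(u / 4))

section
variable {ι : Type} [Fintype ι]

/-- the order of `∏ L_i^(n i)` at `1/2 + a` -/
noncomputable def nn (D : ι → Dat) (n : ι → ℤ) (a : ℂ) : ℤ := ∑ i, n i * ((D i).m a : ℤ)

/-- the prime sum of `∏ L_i^(n i)` -/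
noncomputable def PP (D : ι → Dat) (n : ι → ℤ) (u : ℝ) : ℂ := ∑ i, (n i : ℂ) * (D i).P u

/-- no zeros and no poles off the line -/
def Hyp (D : ι → Dat) (n : ι → ℤ) : Prop := ∀ a : ℂ, a.re ≠ 0 → nn D n a = 0

end

/-- **Job LA.** Bounded means exclude zeros and poles off the line.
Proof.  `f = PP D n` is continuous.  By the hypothesis (as in `Pool.Agent.Q14.LQ.int_of_bound`, file `Pool/Agent/Q14/LQ/LA1.lean`, used in
`Pool.Agent.Q253.LC.grh_chi`, file `Pool/Agent/Q253/LC/C2.lean`, with `lc`, `lc_eq`, `lc_diff`) `F(z) = ∫_0^∞ f(u) e^(-zu) du` is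
analytic for `Re z > 0`.  By `S_EF` and linearity `f(u) = -∑_a n(a) c(a) e^(au) + r(u)`, `n(a) = nn D n a`, `c(a) = 2/(1-a²)`,
`r` continuous on `[0, ∞)`, `|r(u)| ≤ C e^(-u/4)`; so for `Re z > 1` `F(z) = -∑_a n(a) c(a)/(z-a) + R(z)`, `R` analytic for
`Re z > -1/4`, and `∑ |n(a)| |c(a)| < ∞` by `S_PF`.  Suppose `n(a₀) ≠ 0`, `0 < Re a₀ ≤ 1/2`.  Let `T` be the finite set of the `a` with
`n(a) ≠ 0` and `|Im a - Im a₀| ≤ 1` (finite as `∑ |n(a)|/(1+‖a‖²) < ∞`), `Q(z) = ∏_{a ∈ T} (z - a)`, and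
`W = {z : 0 < Re z, |Im z - Im a₀| < 1/2}` (convex).  On `W` the function
`H(z) = -∑_{a ∈ T} n(a) c(a) ∏_{b ∈ T, b ≠ a} (z-b) + Q(z) (R(z) - ∑_{a ∉ T} n(a) c(a)/(z-a))` is analytic (`|z - a| ≥ 1/2` for
`a ∉ T`; `differentiableOn_tsum_of_summable_norm`), `H = Q F` for `Re z > 1`, hence on `W`; at `z = a₀`: `H(a₀) = Q(a₀) F(a₀) = 0`,
but `H(a₀) = -n(a₀) c(a₀) ∏_{b ≠ a₀} (a₀ - b) ≠ 0`.  So `n(a) = 0` for `Re a > 0`, and for `Re a < 0` by symmetry: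
`(D i).m (-conj a) = (D i).m a` from `sym`. -/
def S_LA : Prop := ∀ (ι : Type) [Fintype ι] (D : ι → Dat) (n : ι → ℤ),
  (∃ C : ℝ, ∀ᶠ U : ℝ in atTop, ∫ u in (0 : ℝ)..U, ‖PP D n u‖ ≤ C * U) → Hyp D n

/-- **Job MS.** Means of almost periodic functions (weights of any sign).
Proof.  Adapt `Pool/Agent/Q253/LC/C1.lean` (`mean_series_c`, `mean_series_c'`, `corr`, there for weights `≥ 0`).  `Fw u * conj (Fv u)` is the
absolutely convergent double series `∑ w(γ) v(δ) e^(i(γ-δ)u)`; the mean over `[0, U]` of `e^(iau)` is `1` for `a = 0` and tends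
to `0` otherwise (dominated convergence for series, bound `|w(γ) v(δ)|`); the exponentially small terms do not matter
as all functions are bounded for `u ≥ 0`.  The last part is simpler. -/
def S_MS : Prop := ∀ (w v : ℝ → ℝ) (F G : ℝ → ℂ), Summable (fun γ => |w γ|) → Summable (fun γ => |v γ|) →
  Continuous F → Continuous G →
  (∃ C : ℝ, ∀ u : ℝ, 0 ≤ u → ‖F u - ∑' γ : ℝ, (w γ : ℂ) * cexp (I * γ * u)‖ ≤ C * Real.exp (-(u / 4))) →
  (∃ C : ℝ, ∀ u : ℝ, 0 ≤ u → ‖G u - ∑' γ : ℝ, (v γ : ℂ) * cexp (I * γ * u)‖ ≤ C * Real.exp (-(u / 4))) →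
  Tendsto (fun U : ℝ => ((1 / U : ℝ) : ℂ) * ∫ u in (0 : ℝ)..U, F u * conj (G u)) atTop
    (𝓝 ((∑' γ : ℝ, w γ * v γ : ℝ) : ℂ)) ∧
  ∀ t : ℝ, Tendsto (fun U : ℝ => ((1 / U : ℝ) : ℂ) * ∫ u in (0 : ℝ)..U, F u * cexp (-(I * t * u))) atTop (𝓝 (w t : ℂ))

/-- **Job VF.** The constants.
Proof.  Apply `S_PF` to each `D i`.  (1) With `logDeriv X (-conj z) = -conj (logDeriv X z)` (`Pool.Agent.Q151.LQ.logDeriv_refl`) and
`z = 1`, `w = -1`: `2 Re (logDeriv X 1) = ∑_a m(a) 2/(1-a²)`.  (2) `deriv (logDeriv X) 1 = ∑_a m(a) (-1/(1-a)²)`.  (3) So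
`V = Re ∑_a m(a) (2/(1-a²) + 2/(1-a)²) = Re ∑_a m(a) 4/((1-a)² (1+a))`.  Sum over `i` with the weights `n i`, exchange the sums;
by `Hyp` only the `a = iγ` remain (`γ ↦ iγ` is injective, `Function.Injective.tsum_eq`), and there
`Re 4/((1-a)²(1+a)) = Re 4/((1-iγ)(1+γ²)) = 4/(1+γ²)²`, `2/(1-a²) = 2/(1+γ²)`. -/
def S_VF : Prop := ∀ (ι : Type) [Fintype ι] (D : ι → Dat) (n : ι → ℤ), Hyp D n →
  Summable (fun γ : ℝ => |(nn D n (γ * I) : ℝ)| / (1 + γ ^ 2)) ∧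
  ∑ i, (n i : ℝ) * (2 * (logDeriv (D i).X 1).re) = ∑' γ : ℝ, (nn D n (γ * I) : ℝ) * (2 / (1 + γ ^ 2)) ∧
  ∑ i, (n i : ℝ) * (D i).V = ∑' γ : ℝ, (nn D n (γ * I) : ℝ) * (2 / (1 + γ ^ 2)) ^ 2 ∧
  ∀ u : ℝ, ∑ i, (n i : ℂ) * (D i).Z u =
    ∑' γ : ℝ, (((nn D n (γ * I) : ℝ) * (2 / (1 + γ ^ 2)) : ℝ) : ℂ) * cexp (I * γ * u)

end Pool.Agent.Q253.NF
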