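import Pool.Agent.Q253.NF.Stm3

set_option autoImplicit false

/-! # Project NF: tools for the assembly -/

namespace Pool.Agent.Q253.NF

open MeasureTheory Filter Topology Set Complex NumberField IsDedekindDomain
open Pool.Agent.Q92.AR (Unramified frob Continues LP artinL fixer)
open scoped ComplexConjugate

lemma X_ne (D : Dat) {z : ℂ} (hz : 1 / 2 < z.re) : D.X z ≠ 0 := by
  intro h
  have := D.strip z h
  rw [abs_le] at this
  linarith [this.2]

section
variable {E : Type} [Field E] [NumberField E] {D : Dat}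

lemma ded_logDeriv (h : IsDed E D) {z : ℂ} (hz : 1 / 2 < z.re) :
    logDeriv D.X z = logDeriv (xiF E) (1 / 2 + z) := by
  obtain ⟨c, hc, hX⟩ := h.X
  have h1 : xiF E =ᶠ[𝓝 (1 / 2 + z)] fun w => c⁻¹ * D.X (w - 1 / 2) := by
    have h2 : {w : ℂ | 1 / 2 < (w - 1 / 2).re} ∈ 𝓝 (1 / 2 + z) := by
      refine (isOpen_lt continuous_const (by fun_prop)).mem_nhds ?_
      change 1 / 2 < (1 / 2 + z - 1 / 2).re
      rw [show (1 / 2 : ℂ) + z - 1 / 2 = z by ring]
      exact hz
    filter_upwards [h2] with w hw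
    rw [hX _ hw, show (1 / 2 : ℂ) + (w - 1 / 2) = w by ring, ← mul_assoc, inv_mul_cancel₀ hc, one_mul]
  have h3 : deriv (xiF E) (1 / 2 + z) = c⁻¹ * deriv D.X z := by
    rw [h1.deriv_eq]
    have h4 : HasDerivAt (fun w : ℂ => c⁻¹ * D.X (w - 1 / 2)) (c⁻¹ * deriv D.X z) (1 / 2 + z) := by
      have h5 : HasDerivAt D.X (deriv D.X z) (1 / 2 + z - 1 / 2) := by
        rw [show (1 / 2 : ℂ) + z - 1 / 2 = z by ring]
        exact (D.diff z).hasDerivAt
      exact (HasDerivAt.comp_sub_const (1 / 2 + z) (1 / 2) h5).const_mul c⁻¹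
    exact h4.deriv
  have h5 : xiF E (1 / 2 + z) = c⁻¹ * D.X z := by
    rw [h1.self_of_nhds]
    change c⁻¹ * D.X (1 / 2 + z - 1 / 2) = _
    rw [show (1 / 2 : ℂ) + z - 1 / 2 = z by ring]
  rw [logDeriv_apply, logDeriv_apply, h3, h5, mul_div_mul_left _ _ (inv_ne_zero hc)]

/-- the constant of a field -/
noncomputable def VF (E : Type) [Field E] [NumberField E] : ℝ :=
  2 * (logDeriv (xiF E) (3 / 2) - deriv (logDeriv (xiF E)) (3 / 2)).re

lemma ded_V (h : IsDed E D) : D.V = VF E := by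
  unfold Dat.V VF
  have h1 := ded_logDeriv h (z := 1) (by norm_num)
  have h2 : logDeriv D.X =ᶠ[𝓝 1] fun z => logDeriv (xiF E) (1 / 2 + z) := by
    have h3 : {w : ℂ | 1 / 2 < w.re} ∈ 𝓝 (1 : ℂ) :=
      (isOpen_lt continuous_const Complex.continuous_re).mem_nhds (by norm_num)
    filter_upwards [h3] with w hw
    exact ded_logDeriv h hw
  rw [h1, h2.deriv_eq]
  have h4 : deriv (fun z => logDeriv (xiF E) (1 / 2 + z)) 1 = deriv (logDeriv (xiF E)) (1 / 2 + 1) :=
    deriv_comp_const_add _ _ _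
  rw [h4]
  norm_num

/-- the order of the Dedekind zeta function of `E` -/
noncomputable def ord (E : Type) [Field E] [NumberField E] (s : ℂ) : ℤ :=
  open Classical in if h : ∃ f, Continues f (dedekindZeta E) then (meromorphicOrderAt h.choose s).untop₀ else 0

lemma ded_ord (h : IsDed E D) {s : ℂ} (hs : 0 < s.re) :
    ord E s = (D.m (s - 1 / 2) : ℤ) - if s = 1 then 1 else 0 := by
  unfold ord
  rw [dif_pos h.cont, h.ord _ h.cont.choose_spec s hs]
  rfl

end

end Pool.Agent.Q253.NF
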