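import Pool.Agent.Q253.NF.A1
import Pool.Agent.Q96.NF.PF
import Pool.Agent.Q96.NF.EF
import Pool.Agent.Q184.NF.LA
import Pool.Agent.Q153.NF.MS
import Pool.Agent.Q24.NF.VF
import Pool.Agent.Q177.NF.MSQ
import Pool.Agent.Q31.NF.RAYD
import Pool.Agent.Q151.NF.Ded
import Pool.Agent.Q151.NF.Ordl
import Pool.Agent.Q26.NF.RED
import Pool.Agent.Q26.NF.SUMR
import Pool.Agent.Q262.NF.CHD
import Pool.Agent.Q149.NF.IDAT
import Pool.Agent.Q190.NF.ARTD
import Pool.Agent.Q190.NF.PERM
import Pool.Agent.Q284.SP.Zeta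

set_option autoImplicit false
set_option linter.unusedSectionVars false

/-! # Project NF: the Artin L-functions of a Galois extension, first part -/

namespace Pool.Agent.Q253.NF.G

open MeasureTheory Filter Topology Set Complex NumberField IsDedekindDomain
open Pool.Agent.Q92.AR (Unramified frob Continues LP artinL fixer)
open Pool.Agent.Q92.RT (induced)
open Pool.Agent.H541R3.ART (Irr irrF mem_irrF)
open scoped ComplexConjugate

lemma m_conj (D : Dat) (a : ℂ) : D.m (-conj a) = D.m a := by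
  have h1 := (Pool.Agent.Q184.NF.res D (-conj a)).1
  have h2 := (Pool.Agent.Q184.NF.res D a).1
  have hg : Tendsto (fun w : ℂ => -conj w) (𝓝[≠] a) (𝓝[≠] (-conj a)) := by
    refine tendsto_nhdsWithin_iff.2 ⟨?_, ?_⟩
    · have : ContinuousAt (fun w : ℂ => -conj w) a := (Complex.continuous_conj.neg).continuousAt
      exact this.tendsto.mono_left nhdsWithin_le_nhds
    · filter_upwards [self_mem_nhdsWithin] with w hw
      intro h
      apply hw
      have h3 : -conj w = -conj a := h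
      have h4 := congrArg conj (neg_injective h3)
      simpa using h4
  have h3 := h1.comp hg
  have h4 : Tendsto (fun w : ℂ => conj ((w - a) * logDeriv D.X w)) (𝓝[≠] a) (𝓝 (conj (D.m a : ℂ))) :=
    (Complex.continuous_conj.tendsto _).comp h2
  have h5 : (fun w : ℂ => conj ((w - a) * logDeriv D.X w)) =
      (fun z => (z - -conj a) * logDeriv D.X z) ∘ fun w : ℂ => -conj w := by
    funext w
    simp only [Function.comp]
    rw [Pool.Agent.Q184.NF.refl, map_mul, map_sub]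
    ring
  rw [h5] at h4
  have h6 := tendsto_nhds_unique h3 h4
  rw [Complex.conj_natCast] at h6
  exact_mod_cast h6

lemma nn_conj {ι : Type} [Fintype ι] (D : ι → Dat) (n : ι → ℤ) (a : ℂ) : nn D n (-conj a) = nn D n a := by
  unfold nn
  exact Finset.sum_congr rfl fun i _ => by rw [m_conj]

/-- the sums over the primes are continuous -/
lemma ks_cont {F : Type} [Field F] [NumberField F] (P : Set (HeightOneSpectrum (𝓞 F)))
    (c : HeightOneSpectrum (𝓞 F) → ℕ → ℂ) (B : ℝ) (hc : ∀ v n, ‖c v n‖ ≤ B) : Continuous (ks P c) := by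
  classical
  have htriv : ∀ 𝔞, ‖Pool.Agent.Q262.NF.triv F 𝔞‖ ≤ 1 := by
    intro 𝔞
    by_cases h : 𝔞 = ⊥
    · rw [h]
      have : Pool.Agent.Q262.NF.triv F ⊥ = 0 := map_zero _
      rw [this, norm_zero]
      exact zero_le_one
    · rw [Pool.Agent.Q262.NF.triv_apply h, norm_one]
  have h1 := (Pool.Agent.Q151.NF.t_LTG (HeightOneSpectrum (𝓞 F) × ℕ)
    (fun x => (if x.1 ∈ P then c x.1 x.2 else 0) * ((Real.log (Ideal.absNorm x.1.asIdeal) *
      Real.exp (-(((x.2 : ℝ) + 1) * Real.log (Ideal.absNorm x.1.asIdeal) / 2)) : ℝ) : ℂ))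
    Pool.Agent.Q31.NF.ll Pool.Agent.Q31.NF.ll_nonneg (fun x hx => ?_)).1
  · refine h1.congr fun u => ?_
    unfold ks
    refine tsum_congr fun x => ?_
    by_cases hx : x.1 ∈ P
    · rw [if_pos hx, if_pos hx, mul_assoc, ← Complex.ofReal_mul]
      rfl
    · rw [if_neg hx, if_neg hx, zero_mul, zero_mul]
  · refine Summable.of_nonneg_of_le (fun k => by positivity) (fun k => ?_)
      ((Pool.Agent.Q31.NF.summable_pr htriv hx).mul_left (max B 0))
    have h2 : ‖Pool.Agent.Q31.NF.bb (Pool.Agent.Q262.NF.triv F) k‖ =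
        ‖((Real.log (Ideal.absNorm k.1.asIdeal) *
      Real.exp (-(((k.2 : ℝ) + 1) * Real.log (Ideal.absNorm k.1.asIdeal) / 2)) : ℝ) : ℂ)‖ := by
      unfold Pool.Agent.Q31.NF.bb
      rw [norm_mul, Pool.Agent.Q262.NF.triv_apply k.1.ne_bot, one_pow, norm_one, one_mul]
    rw [h2, norm_mul, mul_assoc]
    refine mul_le_mul_of_nonneg_right ?_ (by positivity)
    by_cases hx : k.1 ∈ P
    · rw [if_pos hx]
      exact (hc _ _).trans (le_max_left _ _)
    · rw [if_neg hx, norm_zero]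
      exact le_max_right _ _

/-- the Dedekind zeta function has a simple pole at `1` -/
lemma ded_half {E : Type} [Field E] [NumberField E] {D : Dat} (h : IsDed E D) : D.m (1 / 2) = 0 := by
  obtain ⟨c, hc, hX⟩ := h.X
  have h0 : D.X (1 / 2) ≠ 0 := by
    have hcont : Tendsto (fun x : ℝ => D.X ((x : ℂ) - 1 / 2)) (𝓝[>] 1) (𝓝 (D.X (1 / 2))) := by
      have h1 : ContinuousAt (fun x : ℝ => D.X ((x : ℂ) - 1 / 2)) 1 := by
        have h2 : Continuous (fun x : ℝ => D.X ((x : ℂ) - 1 / 2)) :=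
          D.diff.continuous.comp (by fun_prop)
        exact h2.continuousAt
      have h3 := h1.tendsto.mono_left (nhdsWithin_le_nhds (s := Ioi (1 : ℝ)))
      have h4 : ((1 : ℝ) : ℂ) - 1 / 2 = 1 / 2 := by norm_num
      rw [h4] at h3
      exact h3
    have hz := NumberField.tendsto_sub_one_mul_dedekindZeta_nhdsGT (K := E)
    have hd : (0 : ℝ) < |(discr E : ℝ)| := by
      rw [abs_pos]
      exact_mod_cast NumberField.discr_ne_zero E
    have hdc : (((|(discr E : ℝ)| : ℝ) : ℂ)) ≠ 0 := by exact_mod_cast hd.ne'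
    have hG : Tendsto (fun x : ℝ => c * ((x : ℂ) * ((|(discr E : ℝ)| : ℝ) : ℂ) ^ ((x : ℂ) / 2) *
        Gammaℝ x ^ InfinitePlace.nrRealPlaces E * Gammaℂ x ^ InfinitePlace.nrComplexPlaces E)) (𝓝[>] 1)
        (𝓝 (c * (((1 : ℝ) : ℂ) * ((|(discr E : ℝ)| : ℝ) : ℂ) ^ (((1 : ℝ) : ℂ) / 2) *
        Gammaℝ (1 : ℝ) ^ InfinitePlace.nrRealPlaces E * Gammaℂ (1 : ℝ) ^ InfinitePlace.nrComplexPlaces E))) := by
      have h5 : ContinuousAt (fun x : ℝ => c * ((x : ℂ) * ((|(discr E : ℝ)| : ℝ) : ℂ) ^ ((x : ℂ) / 2) *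
        Gammaℝ x ^ InfinitePlace.nrRealPlaces E * Gammaℂ x ^ InfinitePlace.nrComplexPlaces E)) 1 := by
        have g1 : ContinuousAt Gammaℝ ((1 : ℝ) : ℂ) :=
          (Pool.Agent.Q31.NF.gaR_diff (s := ((1 : ℝ) : ℂ)) (by norm_num)).continuousAt
        have g2 : ContinuousAt Gammaℂ ((1 : ℝ) : ℂ) := by
          have g3 : Gammaℂ = fun s => Gammaℝ s * Gammaℝ (s + 1) := by
            funext s
            rw [Gammaℝ_mul_Gammaℝ_add_one]
          rw [g3]
          refine g1.mul (ContinuousAt.comp (g := Gammaℝ) (f := fun s : ℂ => s + 1) ?_ (by fun_prop))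
          exact (Pool.Agent.Q31.NF.gaR_diff (s := ((1 : ℝ) : ℂ) + 1) (by norm_num)).continuousAt
        have g4 : ContinuousAt (fun x : ℝ => Gammaℝ (x : ℂ)) 1 :=
          ContinuousAt.comp (g := Gammaℝ) (f := fun x : ℝ => (x : ℂ)) g1 (by fun_prop)
        have g5 : ContinuousAt (fun x : ℝ => Gammaℂ (x : ℂ)) 1 :=
          ContinuousAt.comp (g := Gammaℂ) (f := fun x : ℝ => (x : ℂ)) g2 (by fun_prop)
        have g6 : ContinuousAt (fun x : ℝ => ((|(discr E : ℝ)| : ℝ) : ℂ) ^ ((x : ℂ) / 2)) 1 := by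
          have g7 : Continuous (fun x : ℝ => ((|(discr E : ℝ)| : ℝ) : ℂ) ^ ((x : ℂ) / 2)) :=
            Continuous.const_cpow (by fun_prop) (Or.inl hdc)
          exact g7.continuousAt
        exact continuousAt_const.mul ((((by fun_prop : ContinuousAt (fun x : ℝ => (x : ℂ)) 1).mul g6).mul
          (g4.pow _)).mul (g5.pow _))
      exact h5.tendsto.mono_left nhdsWithin_le_nhds
    have hprod := hG.mul hz
    have heq : ∀ᶠ x : ℝ in 𝓝[>] 1, c * ((x : ℂ) * ((|(discr E : ℝ)| : ℝ) : ℂ) ^ ((x : ℂ) / 2) *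
        Gammaℝ x ^ InfinitePlace.nrRealPlaces E * Gammaℂ x ^ InfinitePlace.nrComplexPlaces E) *
        (((x : ℂ) - 1) * dedekindZeta E x) = D.X ((x : ℂ) - 1 / 2) := by
      filter_upwards [self_mem_nhdsWithin] with x hx
      have hx1 : (1 : ℝ) < x := hx
      rw [hX _ (by simp; linarith)]
      unfold xiF
      rw [show (1 / 2 : ℂ) + ((x : ℂ) - 1 / 2) = x by ring]
      ring
    have hlim := tendsto_nhds_unique hcont (hprod.congr' heq)
    rw [hlim]
    refine mul_ne_zero (mul_ne_zero hc (mul_ne_zero (mul_ne_zero (mul_ne_zero (by norm_num) ?_) ?_) ?_)) ?_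
    · rw [Complex.cpow_ne_zero_iff]
      exact Or.inl hdc
    · exact pow_ne_zero _ (Gammaℝ_ne_zero_of_re_pos (by norm_num))
    · refine pow_ne_zero _ ?_
      rw [← Gammaℝ_mul_Gammaℝ_add_one]
      exact mul_ne_zero (Gammaℝ_ne_zero_of_re_pos (by norm_num)) (Gammaℝ_ne_zero_of_re_pos (by norm_num))
    · exact_mod_cast (NumberField.dedekindZeta_residue_ne_zero E)
  unfold Dat.m analyticOrderNatAt
  rw [(D.diff.analyticAt _).analyticOrderAt_eq_zero.2 h0]
  rfl

end Pool.Agent.Q253.NF.G
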