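import Pool.Agent.Q253.NF.G1

set_option autoImplicit false
set_option linter.unusedSectionVars false

/-! # Project NF: the Artin L-functions of a Galois extension, second part: one character -/

namespace Pool.Agent.Q253.NF.G

open MeasureTheory Filter Topology Set Complex NumberField IsDedekindDomain
open Pool.Agent.Q92.AR (Unramified frob Continues LP artinL fixer recip hecke brauer mero hol)
open Pool.Agent.Q92.RT (induced)
open Pool.Agent.H541R3.ART (Irr irrF mem_irrF)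
open scoped ComplexConjugate

section
variable {K M : Type} [Field K] [NumberField K] [Field M] [NumberField M] [Algebra K M]

open Classical in
/-- the sum over the prime powers for the function `χ` -/
noncomputable def F (χ : (M ≃ₐ[K] M) → ℂ) (u : ℝ) : ℂ :=
  ks {v : HeightOneSpectrum (𝓞 K) | Unramified M v} (fun v n => χ (frob M v ^ (n + 1))) u -
    if ∀ g, χ g = 1 then ((8 / 3 * Real.exp (u / 2) : ℝ) : ℂ) else 0

open Classical in
/-- the order of the continuation of the Artin L-function -/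
noncomputable def ordL (χ : (M ≃ₐ[K] M) → ℂ) (s : ℂ) : ℤ :=
  if h : ∃ f, Continues f (artinL M χ) then (meromorphicOrderAt h.choose s).untop₀ else 0

open Classical in
/-- the data of an Artin L-function (the conclusion of `S_ARTD`) -/
structure ArtD (χ : (M ≃ₐ[K] M) → ℂ) where
  ι : Type
  fi : Fintype ι
  D : ι → Dat
  n : ι → ℤ
  p : ∑ i, n i * ((D i).p : ℤ) = if ∀ g, χ g = 1 then 1 else 0
  close : ∃ C : ℝ, ∀ u : ℝ, 0 ≤ u → ‖ks {v : HeightOneSpectrum (𝓞 K) | Unramified M v} (fun v n => χ (frob M v ^ (n + 1))) u -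
    ∑ i, (n i : ℂ) * (D i).E u‖ ≤ C * Real.exp (-(u / 4))
  ord : ∀ f : ℂ → ℂ, Continues f (artinL M χ) → ∀ s : ℂ, 0 < s.re →
    meromorphicOrderAt f s = ((nn D n (s - 1 / 2) - (if s = 1 then ∑ i, n i * ((D i).p : ℤ) else 0) : ℤ) : WithTop ℤ)

attribute [instance] ArtD.fi

/-- no zeros and no poles off the line (except the pole at `s = 1` of the trivial character) -/
def Off (χ : (M ≃ₐ[K] M) → ℂ) : Prop :=
  ∀ s : ℂ, 1 / 2 < s.re → (s = 1 → ¬ ∀ g, χ g = 1) → ordL χ s = 0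

variable [IsGalois K M]

lemma exists_artD {χ : (M ≃ₐ[K] M) → ℂ} (hχ : χ ∈ Irr (M ≃ₐ[K] M)) : Nonempty (ArtD χ) := by
  obtain ⟨ι, fi, D, n, h1, h2, h3⟩ := Pool.Agent.Q190.NF.artd Pool.Agent.Q151.NF.t_LTG Pool.Agent.Q31.NF.rayd
    Pool.Agent.Q151.NF.t_ORDL Pool.Agent.Q26.NF.red Pool.Agent.Q262.NF.chd Pool.Agent.Q190.NF.indk Pool.Agent.Q149.NF.idat K M χ hχ
  exact ⟨⟨ι, fi, D, n, h1, h2, h3⟩⟩

lemma exists_cont {χ : (M ≃ₐ[K] M) → ℂ} (hχ : χ ∈ Irr (M ≃ₐ[K] M)) : ∃ f, Continues f (artinL M χ) :=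
  mero recip hecke brauer hχ

lemma exists_ded (E : Type) [Field E] [NumberField E] : ∃ D, IsDed E D := by
  obtain ⟨D, h⟩ := Pool.Agent.Q151.NF.t_DED Pool.Agent.Q151.NF.t_LTG Pool.Agent.Q31.NF.rayd Pool.Agent.Q151.NF.t_ORDL E
  exact ⟨D, h.1, h.2.1, h.2.2.1, h.2.2.2.1, h.2.2.2.2.1, h.2.2.2.2.2.1, h.2.2.2.2.2.2⟩

variable {χ : (M ≃ₐ[K] M) → ℂ}

open Classical in
lemma ordL_eq (A : ArtD χ) (hχ : χ ∈ Irr (M ≃ₐ[K] M)) {s : ℂ} (hs : 0 < s.re) :
    ordL χ s = nn A.D A.n (s - 1 / 2) - if s = 1 then (if ∀ g, χ g = 1 then 1 else 0) else 0 := by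
  unfold ordL
  rw [dif_pos (exists_cont hχ), A.ord _ (exists_cont hχ).choose_spec s hs, A.p]
  rfl

lemma ordL_line (A : ArtD χ) (hχ : χ ∈ Irr (M ≃ₐ[K] M)) (t : ℝ) :
    ordL χ (1 / 2 + t * I) = nn A.D A.n (t * I) := by
  rw [ordL_eq A hχ (by simp), if_neg, sub_zero]
  · congr 1
    ring
  · intro h
    have := congrArg Complex.re h
    norm_num at this

lemma F_cont (χ : (M ≃ₐ[K] M) → ℂ) : Continuous (F χ) := by
  classical
  obtain ⟨C, -, hC⟩ := Pool.Agent.Q92.AR.exists_bound χ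
  unfold F
  refine (ks_cont _ _ C fun v n => hC _).sub ?_
  split_ifs
  · fun_prop
  · fun_prop

lemma F_close (A : ArtD χ) : ∃ C : ℝ, ∀ u : ℝ, 0 ≤ u → ‖F χ u - PP A.D A.n u‖ ≤ C * Real.exp (-(u / 4)) := by
  classical
  obtain ⟨C, hC⟩ := A.close
  refine ⟨C, fun u hu => ?_⟩
  have h1 : F χ u - PP A.D A.n u = ks {v : HeightOneSpectrum (𝓞 K) | Unramified M v} (fun v n => χ (frob M v ^ (n + 1))) u -
    ∑ i, (A.n i : ℂ) * (A.D i).E u := by
    unfold F PP Dat.P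
    have h2 : ((∑ i, A.n i * ((A.D i).p : ℤ) : ℤ) : ℂ) = if ∀ g, χ g = 1 then 1 else 0 := by
      rw [A.p]
      push_cast
      rfl
    have h3 : (if ∀ g, χ g = 1 then ((8 / 3 * Real.exp (u / 2) : ℝ) : ℂ) else 0) =
        ((∑ i, A.n i * ((A.D i).p : ℤ) : ℤ) : ℂ) * ((8 / 3 * Real.exp (u / 2) : ℝ) : ℂ) := by
      rw [h2]
      split_ifs <;> simp
    rw [h3]
    push_cast
    rw [Finset.sum_mul]
    simp only [mul_sub, Finset.sum_sub_distrib]
    have h4 : ∀ i, (A.n i : ℂ) * (((A.D i).p : ℂ) * (8 / 3 * cexp (u / 2))) =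
      (A.n i : ℂ) * ((A.D i).p : ℂ) * (8 / 3 * cexp (u / 2)) := fun i => by ring
    simp only [h4]
    ring
  rw [h1]
  exact hC u hu

/-- the trivial character -/
lemma triv_irr : (fun _ : M ≃ₐ[K] M => (1 : ℂ)) ∈ Irr (M ≃ₐ[K] M) := by
  have := Pool.Agent.Q7.SZ.lin_irr (G := M ≃ₐ[K] M) 1
  simpa using this

lemma induced_top (g : M ≃ₐ[K] M) : induced (⊤ : Subgroup (M ≃ₐ[K] M)) 1 g = 1 := by
  unfold induced
  have : Fintype (M ≃ₐ[K] M) := Fintype.ofFinite _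
  rw [Subgroup.card_top]
  simp only [Subgroup.mem_top, dite_true, MonoidHom.one_apply, Units.val_one]
  rw [finsum_eq_sum_of_fintype, Finset.sum_const, Finset.card_univ, nsmul_eq_mul, mul_one,
    ← Nat.card_eq_fintype_card]
  exact inv_mul_cancel₀ (by exact_mod_cast Nat.card_pos.ne')

lemma fixer_base : fixer K K M = ⊤ := by
  rw [eq_top_iff]
  intro g _
  change ∀ x : K, _
  intro x
  exact g.commutes x

lemma triv_half (A : ArtD χ) (h : ∀ g, χ g = 1) : nn A.D A.n (1 / 2) = 0 := by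
  classical
  have hχ : χ = fun _ => 1 := funext h
  have hχi : χ ∈ Irr (M ≃ₐ[K] M) := by rw [hχ]; exact triv_irr
  obtain ⟨D, hD⟩ := exists_ded K
  obtain ⟨f, hf⟩ := hD.cont
  obtain ⟨g, hg⟩ := exists_cont hχi
  have h1 : artinL M (induced (fixer K K M) 1) = artinL M χ := by
    rw [fixer_base, hχ]
    congr 1
    funext y
    exact induced_top y
  have h2 := Pool.Agent.Q92.AR.order_zeta (K := K) (F := K) (M := M) hf (by rw [h1]; exact hg) (s₀ := 1) (by norm_num)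
  rw [hD.ord f hf 1 (by norm_num), A.ord g hg 1 (by norm_num), A.p, if_pos rfl, if_pos rfl, if_pos h] at h2
  have h3 : (1 : ℂ) - 1 / 2 = 1 / 2 := by norm_num
  rw [h3, ded_half hD] at h2
  have h4 : ((0 : ℕ) : ℤ) - 1 = nn A.D A.n (1 / 2) - 1 := by exact_mod_cast h2
  rw [Nat.cast_zero] at h4
  linarith

lemma hyp_iff (A : ArtD χ) (hχ : χ ∈ Irr (M ≃ₐ[K] M)) : Hyp A.D A.n ↔ Off χ := by
  classical
  constructor
  · intro h s hs h1
    rw [ordL_eq A hχ (by linarith), h _ (by rw [Complex.sub_re]; norm_num; linarith)]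
    split_ifs with h2 h3
    · exact absurd h3 (h1 h2)
    · rfl
    · rfl
  · intro h
    have h1 : ∀ a : ℂ, 0 < a.re → nn A.D A.n a = 0 := by
      intro a ha
      by_cases h2 : 1 / 2 + a = 1
      · by_cases h3 : ∀ g, χ g = 1
        · have h4 : a = 1 / 2 := by linear_combination h2
          rw [h4]
          exact triv_half A h3
        · have h5 := h (1 / 2 + a) (by simp [ha]) (fun _ => h3)
          rw [ordL_eq A hχ (by rw [Complex.add_re]; norm_num; linarith), if_pos h2, if_neg h3, sub_zero] at h5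
          rw [← h5]
          congr 1
          ring
      · have h5 := h (1 / 2 + a) (by simp [ha]) (fun h6 => absurd h6 h2)
        rw [ordL_eq A hχ (by rw [Complex.add_re]; norm_num; linarith), if_neg h2, sub_zero] at h5
        rw [← h5]
        congr 1
        ring
    intro a ha
    rcases lt_or_gt_of_ne ha with h2 | h2
    · rw [← nn_conj]
      exact h1 _ (by rw [Complex.neg_re, Complex.conj_re]; linarith)
    · exact h1 a h2

/-- mean squares for one character -/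
lemma msq (A : ArtD χ) : (Hyp A.D A.n ↔ ∃ C : ℝ, ∀ᶠ U : ℝ in atTop, (1 / U) * ∫ u in (0 : ℝ)..U, ‖F χ u‖ ^ 2 ≤ C) ∧
    (Hyp A.D A.n → Summable (fun γ : ℝ => ((nn A.D A.n (γ * I) : ℝ) * (2 / (1 + γ ^ 2))) ^ 2) ∧
      Summable (fun γ : ℝ => (nn A.D A.n (γ * I) : ℝ) * ((nn A.D A.n (γ * I) : ℝ) - 1) * (2 / (1 + γ ^ 2)) ^ 2) ∧
      Tendsto (fun U : ℝ => (1 / U) * ∫ u in (0 : ℝ)..U, ‖F χ u‖ ^ 2) atTop
        (𝓝 (∑' γ : ℝ, ((nn A.D A.n (γ * I) : ℝ) * (2 / (1 + γ ^ 2))) ^ 2)) ∧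
      ∑' γ : ℝ, ((nn A.D A.n (γ * I) : ℝ) * (2 / (1 + γ ^ 2))) ^ 2 = ∑ i, (A.n i : ℝ) * (A.D i).V +
        ∑' γ : ℝ, (nn A.D A.n (γ * I) : ℝ) * ((nn A.D A.n (γ * I) : ℝ) - 1) * (2 / (1 + γ ^ 2)) ^ 2 ∧
      (∀ t : ℝ, Tendsto (fun U : ℝ => ((1 / U : ℝ) : ℂ) * ∫ u in (0 : ℝ)..U, -F χ u * cexp (-(I * t * u))) atTop
        (𝓝 (((nn A.D A.n (t * I) : ℝ) * (2 / (1 + t ^ 2)) : ℝ) : ℂ))) ∧
      ∃ C : ℝ, ∀ u : ℝ, 0 ≤ u →
        ‖-F χ u - ∑' γ : ℝ, (((nn A.D A.n (γ * I) : ℝ) * (2 / (1 + γ ^ 2)) : ℝ) : ℂ) * cexp (I * γ * u)‖ ≤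
          C * Real.exp (-(u / 4))) :=
  Pool.Agent.Q177.NF.msq Pool.Agent.Q96.NF.pf Pool.Agent.Q96.NF.ef Pool.Agent.Q184.NF.la' Pool.Agent.Q153.NF.ms
    (Pool.Agent.Q24.NF.vf Pool.Agent.Q96.NF.pf) A.ι A.D A.n (F χ) (F_cont χ) (F_close A)

lemma vf (A : ArtD χ) (h : Hyp A.D A.n) :
    Summable (fun γ : ℝ => |(nn A.D A.n (γ * I) : ℝ)| / (1 + γ ^ 2)) ∧
    ∑ i, (A.n i : ℝ) * (A.D i).V = ∑' γ : ℝ, (nn A.D A.n (γ * I) : ℝ) * (2 / (1 + γ ^ 2)) ^ 2 := by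
  obtain ⟨h1, -, h2, -⟩ := Pool.Agent.Q24.NF.vf Pool.Agent.Q96.NF.pf A.ι A.D A.n h
  exact ⟨h1, h2⟩

end

end Pool.Agent.Q253.NF.G
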