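import Pool.Agent.Q253.NF.G2

set_option autoImplicit false
set_option linter.unusedSectionVars false

/-! # Project NF: the Artin L-functions of a Galois extension, third part: relations with the zeta functions of the fields -/

namespace Pool.Agent.Q253.NF.G

open MeasureTheory Filter Topology Set Complex NumberField IsDedekindDomain
open Pool.Agent.Q92.AR (Unramified frob Continues LP artinL fixer recip hecke brauer mero hol)
open Pool.Agent.Q92.RT (induced induced_conj induced_pair class_expand)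
open Pool.Agent.H541R3.ART (Irr irrF mem_irrF exists_mult)
open scoped ComplexConjugate

section
variable {G : Type} [Group G] [Finite G]

lemma irr_conj {χ : G → ℂ} (hχ : χ ∈ Irr G) (g x : G) : χ (x * g * x⁻¹) = χ g := by
  obtain ⟨n, ρ, -, rfl⟩ := hχ
  exact ρ.char_conj g x

/-- the multiplicities in an induced character -/
lemma induced_expand (H : Subgroup G) : ∃ b : (G → ℂ) → ℕ, ∀ g, induced H 1 g = ∑ χ ∈ irrF G, (b χ : ℂ) * χ g := by
  classical
  have : Fintype G := Fintype.ofFinite G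
  have h1 : ∀ χ : G → ℂ, ∃ m : ℕ, χ ∈ Irr G →
      ∑ᶠ h : H, χ h * ((((1 : H →* ℂˣ) h)⁻¹ : ℂˣ) : ℂ) = (m : ℂ) * (Nat.card H : ℂ) := by
    intro χ
    by_cases hχ : χ ∈ Irr G
    · obtain ⟨m, hm⟩ := exists_mult hχ H 1
      exact ⟨m, fun _ => hm⟩
    · exact ⟨0, fun h => absurd h hχ⟩
  choose b hb using h1
  refine ⟨b, fun g => class_expand (θ := induced H 1) (fun g x => induced_conj H 1 g x) (m := fun χ => (b χ : ℂ))
    (fun χ hχ => ?_) g⟩
  exact induced_pair H 1 (χ := χ) (fun g x => irr_conj hχ g x) (hb χ hχ)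

/-- the degree of an irreducible character -/
lemma exists_deg {χ : G → ℂ} (hχ : χ ∈ Irr G) : ∃ n : ℕ, 0 < n ∧ χ 1 = n := by
  obtain ⟨n, ρ, hρ, rfl⟩ := hχ
  have h1 : ρ.character 1 = (n : ℂ) := by
    change LinearMap.trace ℂ _ (ρ 1) = _
    rw [map_one, LinearMap.trace_one, Module.finrank_fin_fun]
  refine ⟨n, Nat.pos_of_ne_zero ?_, h1⟩
  rintro rfl
  have h2 : (ρ.character) ∈ Irr G := ⟨0, ρ, hρ, rfl⟩
  have : Fintype G := Fintype.ofFinite G
  have h3 := Pool.Agent.H541R3.ART.pair_self h2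
  have h4 : ρ.character = 0 := by
    funext g
    change LinearMap.trace ℂ _ (ρ g) = 0
    have : Subsingleton (Fin 0 → ℂ) := inferInstance
    rw [Subsingleton.elim (ρ g) 0, map_zero]
  rw [h4] at h3
  have h5 : (Nat.card G : ℂ) ≠ 0 := by exact_mod_cast Nat.card_pos.ne'
  apply h5
  simpa using h3.symm

/-- the regular character -/
lemma regular_expand (g : G) : induced (⊥ : Subgroup G) 1 g = ∑ χ ∈ irrF G, χ 1 * χ g := by
  classical
  have : Fintype G := Fintype.ofFinite G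
  refine class_expand (θ := induced (⊥ : Subgroup G) 1) (fun g x => induced_conj _ 1 g x) (m := fun χ => χ 1) (fun χ hχ => ?_) g
  refine induced_pair _ 1 (χ := χ) (fun g x => irr_conj hχ g x) ?_
  have h1 : ∀ h : (⊥ : Subgroup G), χ h * ((((1 : (⊥ : Subgroup G) →* ℂˣ) h)⁻¹ : ℂˣ) : ℂ) = χ 1 := by
    intro h
    have h2 : (h : G) = 1 := Subgroup.mem_bot.1 h.2
    rw [h2]
    simp
  have : Fintype (⊥ : Subgroup G) := Fintype.ofFinite _
  rw [finsum_eq_sum_of_fintype]
  simp only [h1]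
  rw [Finset.sum_const, Finset.card_univ, nsmul_eq_mul, ← Nat.card_eq_fintype_card]
  ring

end

section
variable {K M : Type} [Field K] [NumberField K] [Field M] [NumberField M] [Algebra K M] [IsGalois K M]

/-- the orders for an intermediate field -/
lemma ord_field (E : Type) [Field E] [NumberField E] [Algebra K E] [Algebra E M] [IsScalarTower K E M] :
    ∃ g, Continues g (artinL M (induced (fixer K E M) 1)) ∧
      ∀ s : ℂ, 0 < s.re → meromorphicOrderAt g s = (ord E s : WithTop ℤ) := by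
  obtain ⟨D, hD⟩ := exists_ded E
  obtain ⟨f, hf⟩ := hD.cont
  obtain ⟨g, hg, -⟩ := hol (K := K) (M := M) recip hecke (fixer K E M) 1
  refine ⟨g, hg, fun s hs => ?_⟩
  rw [← Pool.Agent.Q92.AR.order_zeta (K := K) (F := E) (M := M) hf hg hs, hD.ord f hf s hs, ded_ord hD hs]

/-- the orders for an irreducible character -/
lemma ord_irr {χ : (M ≃ₐ[K] M) → ℂ} (hχ : χ ∈ Irr (M ≃ₐ[K] M)) : ∃ g, Continues g (artinL M χ) ∧
    ∀ s : ℂ, 0 < s.re → meromorphicOrderAt g s = (ordL χ s : WithTop ℤ) := by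
  obtain ⟨A⟩ := exists_artD hχ
  obtain ⟨g, hg⟩ := exists_cont hχ
  refine ⟨g, hg, fun s hs => ?_⟩
  rw [ordL_eq A hχ hs, A.ord g hg s hs, A.p]

/-- one field -/
lemma rel_one (E : Type) [Field E] [NumberField E] [Algebra K E] [Algebra E M] [IsScalarTower K E M]
    (b : ((M ≃ₐ[K] M) → ℂ) → ℕ)
    (hb : ∀ g, induced (fixer K E M) 1 g = ∑ χ ∈ irrF (M ≃ₐ[K] M), (b χ : ℂ) * χ g) {s : ℂ} (hs : 0 < s.re) :
    ord E s = ∑ χ ∈ irrF (M ≃ₐ[K] M), (b χ : ℤ) * ordL χ s := by
  classical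
  obtain ⟨g, hg, hg2⟩ := ord_field (K := K) (M := M) E
  choose f hf hf2 using fun χ : {χ // χ ∈ irrF (M ≃ₐ[K] M)} => ord_irr (mem_irrF.1 χ.2)
  have h := Pool.Agent.Q26.NF.sumr K M (Option {χ // χ ∈ irrF (M ≃ₐ[K] M)})
    (fun i => i.elim (induced (fixer K E M) 1) fun χ => χ.1) (fun i => i.elim (-1) fun χ => (b χ.1 : ℚ))
    (fun i => i.elim g f) (fun i => i.elim (ord E s) fun χ => ordL χ.1 s) s ?_ ?_ ?_
  · rw [Fintype.sum_option] at h
    simp only [Option.elim_none, Option.elim_some] at h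
    rw [Finset.sum_coe_sort (irrF (M ≃ₐ[K] M)) (fun χ => (b χ : ℚ) * (ordL χ s : ℚ))] at h
    have h2 : ((ord E s : ℤ) : ℚ) = ∑ χ ∈ irrF (M ≃ₐ[K] M), (b χ : ℚ) * (ordL χ s : ℚ) := by linarith
    exact_mod_cast h2
  · intro x
    rw [Fintype.sum_option]
    simp only [Option.elim_none, Option.elim_some]
    rw [hb x, ← Finset.sum_coe_sort (irrF (M ≃ₐ[K] M)) (fun χ => (b χ : ℂ) * χ x)]
    push_cast
    ring
  · intro i
    cases i with
    | none => exact hg
    | some χ => exact hf χ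
  · intro i
    cases i with
    | none => exact hg2 s hs
    | some χ => exact hf2 χ s hs

/-- the field `M` -/
lemma rel_M {s : ℂ} (hs : 0 < s.re) :
    (ord M s : ℝ) = ∑ χ ∈ irrF (M ≃ₐ[K] M), (χ 1).re * (ordL χ s : ℝ) := by
  classical
  have hd : ∀ χ : (M ≃ₐ[K] M) → ℂ, ∃ n : ℕ, χ ∈ irrF (M ≃ₐ[K] M) → χ 1 = n := by
    intro χ
    by_cases h : χ ∈ irrF (M ≃ₐ[K] M)
    · obtain ⟨n, -, hn⟩ := exists_deg (mem_irrF.1 h)
      exact ⟨n, fun _ => hn⟩
    · exact ⟨0, fun h1 => absurd h1 h⟩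
  choose b hb using hd
  have h1 := rel_one (K := K) (M := M) M b (fun g => by
    rw [Pool.Agent.Q92.AR.fixer_self, regular_expand]
    exact Finset.sum_congr rfl fun χ hχ => by rw [hb χ hχ]) hs
  rw [h1]
  push_cast
  exact Finset.sum_congr rfl fun χ hχ => by rw [hb χ hχ, Complex.natCast_re]

/-- the relation given by rational numbers `r` -/
lemma rel_r (r : Subgroup (M ≃ₐ[K] M) → ℚ)
    (hr : ∀ g, ∑ χ ∈ irrF (M ≃ₐ[K] M), χ g = ∑ᶠ H : Subgroup (M ≃ₐ[K] M), (r H : ℂ) * induced H 1 g) {s : ℂ} (hs : 0 < s.re) :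
    ∑ᶠ H : Subgroup (M ≃ₐ[K] M), r H * (ord (IntermediateField.fixedField H) s : ℚ) =
      ∑ χ ∈ irrF (M ≃ₐ[K] M), (ordL χ s : ℚ) := by
  classical
  have : Fintype (Subgroup (M ≃ₐ[K] M)) := Fintype.ofFinite _
  choose b hb using fun H : Subgroup (M ≃ₐ[K] M) => induced_expand H
  have h1 : ∀ H : Subgroup (M ≃ₐ[K] M), ord (IntermediateField.fixedField H) s =
      ∑ χ ∈ irrF (M ≃ₐ[K] M), (b H χ : ℤ) * ordL χ s := by
    intro H
    refine rel_one (K := K) (M := M) (IntermediateField.fixedField H) (b H) (fun g => ?_) hs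
    rw [Pool.Agent.Q92.AR.fixer_fixedField]
    exact hb H g
  choose f hf hf2 using fun χ : {χ // χ ∈ irrF (M ≃ₐ[K] M)} => ord_irr (mem_irrF.1 χ.2)
  have h := Pool.Agent.Q26.NF.sumr K M {χ // χ ∈ irrF (M ≃ₐ[K] M)} (fun χ => χ.1)
    (fun χ => (∑ H, r H * (b H χ.1 : ℚ)) - 1) f (fun χ => ordL χ.1 s) s ?_ hf (fun χ => hf2 χ s hs)
  · rw [Finset.sum_coe_sort (irrF (M ≃ₐ[K] M)) (fun χ => ((∑ H, r H * (b H χ : ℚ)) - 1) * (ordL χ s : ℚ))] at h
    rw [finsum_eq_sum_of_fintype]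
    simp only [h1]
    push_cast
    simp only [sub_mul, one_mul, Finset.sum_sub_distrib, Finset.sum_mul] at h
    simp only [Finset.mul_sum]
    rw [Finset.sum_comm]
    simp only [← mul_assoc]
    linarith
  · intro x
    have h2 := hr x
    rw [finsum_eq_sum_of_fintype] at h2
    simp only [hb, Finset.mul_sum] at h2
    rw [Finset.sum_comm] at h2
    rw [Finset.sum_coe_sort (irrF (M ≃ₐ[K] M)) (fun χ => ((((∑ H, r H * (b H χ : ℚ)) - 1 : ℚ) : ℂ)) * χ x)]
    push_cast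
    simp only [sub_mul, one_mul, Finset.sum_sub_distrib, Finset.sum_mul]
    rw [h2, sub_eq_zero]
    exact Finset.sum_congr rfl fun χ _ => Finset.sum_congr rfl fun H _ => by ring

/-- the zeta functions of the fields have their zeros on the line -/
lemma field_hyp (hOff : ∀ χ ∈ Irr (M ≃ₐ[K] M), Off χ) (E : Type) [Field E] [NumberField E] [Algebra K E] [Algebra E M]
    [IsScalarTower K E M] {D : Dat} (hD : IsDed E D) (a : ℂ) (ha : a.re ≠ 0) : D.m a = 0 := by
  have key : ∀ a : ℂ, 0 < a.re → D.m a = 0 := by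
    intro a ha
    by_cases h1 : a = 1 / 2
    · rw [h1]
      exact ded_half hD
    · obtain ⟨b, hb⟩ := induced_expand (fixer K E M)
      have h2 := rel_one (K := K) (M := M) E b hb (s := 1 / 2 + a) (by rw [Complex.add_re]; norm_num; linarith)
      have h3 : (1 / 2 : ℂ) + a ≠ 1 := fun h => h1 (by linear_combination h)
      rw [ded_ord hD (by rw [Complex.add_re]; norm_num; linarith), if_neg h3, sub_zero] at h2
      have h4 : ∑ χ ∈ irrF (M ≃ₐ[K] M), (b χ : ℤ) * ordL χ (1 / 2 + a) = 0 :=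
        Finset.sum_eq_zero fun χ hχ => by
          rw [hOff χ (mem_irrF.1 hχ) (1 / 2 + a) (by simp [ha]) (fun h => absurd h h3), mul_zero]
      rw [h4, show (1 / 2 : ℂ) + a - 1 / 2 = a by ring] at h2
      exact_mod_cast h2
  rcases lt_or_gt_of_ne ha with h2 | h2
  · rw [← hD.m_neg]
    exact key _ (by simpa using h2)
  · exact key a h2

end

end Pool.Agent.Q253.NF.G
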