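import Pool.Agent.Q253.NF.G3

set_option autoImplicit false
set_option linter.unusedSectionVars false

/-! # Project NF: the Artin L-functions of a Galois extension, fourth part: mean squares -/

namespace Pool.Agent.Q253.NF.G

open MeasureTheory Filter Topology Set Complex NumberField IsDedekindDomain
open Pool.Agent.Q92.AR (Unramified frob Continues LP artinL fixer)
open Pool.Agent.Q92.RT (induced)
open Pool.Agent.H541R3.ART (Irr irrF mem_irrF)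
open scoped ComplexConjugate

section
variable {K M : Type} [Field K] [NumberField K] [Field M] [NumberField M] [Algebra K M]

/-- the order on the line -/
noncomputable def o (χ : (M ≃ₐ[K] M) → ℂ) (t : ℝ) : ℤ := ordL χ (1 / 2 + t * I)

/-- the term of the excess -/
noncomputable def e (χ : (M ≃ₐ[K] M) → ℂ) (γ : ℝ) : ℝ := (o χ γ : ℝ) * ((o χ γ : ℝ) - 1) * (2 / (1 + γ ^ 2)) ^ 2

/-- the mean square -/
noncomputable def m (χ : (M ≃ₐ[K] M) → ℂ) (U : ℝ) : ℝ := (1 / U) * ∫ u in (0 : ℝ)..U, ‖F χ u‖ ^ 2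

lemma e_nonneg (χ : (M ≃ₐ[K] M) → ℂ) (t : ℝ) : 0 ≤ e χ t := by
  unfold e
  refine mul_nonneg ?_ (sq_nonneg _)
  have h3 : 0 ≤ o χ t * (o χ t - 1) := by
    rcases le_or_gt (o χ t) 0 with h | h
    · nlinarith
    · nlinarith
  exact_mod_cast h3

lemma e_zero {χ : (M ≃ₐ[K] M) → ℂ} {t : ℝ} (h : e χ t ≤ 0) : 0 ≤ o χ t ∧ o χ t ≤ 1 := by
  unfold e at h
  have h3 : (0 : ℝ) < (2 / (1 + t ^ 2)) ^ 2 := by positivity
  have h4 : (o χ t : ℝ) * ((o χ t : ℝ) - 1) ≤ 0 := by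
    by_contra h5
    push Not at h5
    have := mul_pos h5 h3
    linarith
  have h5 : o χ t * (o χ t - 1) ≤ 0 := by exact_mod_cast h4
  constructor
  · by_contra h6
    push Not at h6
    nlinarith
  · by_contra h6
    push Not at h6
    nlinarith

lemma e_eq_zero {χ : (M ≃ₐ[K] M) → ℂ} {t : ℝ} (h0 : 0 ≤ o χ t) (h1 : o χ t ≤ 1) : e χ t = 0 := by
  unfold e
  have h6 : o χ t = 0 ∨ o χ t = 1 := by omega
  rcases h6 with h6 | h6 <;> rw [h6] <;> norm_num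

lemma m_nonneg (χ : (M ≃ₐ[K] M) → ℂ) {U : ℝ} (hU : 0 < U) : 0 ≤ m χ U := by
  unfold m
  refine mul_nonneg (by positivity) (intervalIntegral.integral_nonneg hU.le fun u _ => by positivity)

variable [IsGalois K M]

/-- one character -/
lemma one {χ : (M ≃ₐ[K] M) → ℂ} (hχ : χ ∈ Irr (M ≃ₐ[K] M)) :
    (Off χ ↔ ∃ C : ℝ, ∀ᶠ U : ℝ in atTop, m χ U ≤ C) ∧
    (Off χ → Summable (fun γ : ℝ => |(o χ γ : ℝ)| / (1 + γ ^ 2)) ∧ Summable (e χ) ∧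
      Tendsto (m χ) atTop (𝓝 (∑' γ : ℝ, (o χ γ : ℝ) * (2 / (1 + γ ^ 2)) ^ 2 + ∑' γ : ℝ, e χ γ)) ∧
      (∀ t : ℝ, Tendsto (fun U : ℝ => ((1 / U : ℝ) : ℂ) * ∫ u in (0 : ℝ)..U, -F χ u * cexp (-(I * t * u))) atTop
        (𝓝 (((o χ t : ℝ) * (2 / (1 + t ^ 2)) : ℝ) : ℂ))) ∧
      ∃ C : ℝ, ∀ u : ℝ, 0 ≤ u →
        ‖-F χ u - ∑' γ : ℝ, (((o χ γ : ℝ) * (2 / (1 + γ ^ 2)) : ℝ) : ℂ) * cexp (I * γ * u)‖ ≤ C * Real.exp (-(u / 4))) := by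
  obtain ⟨A⟩ := exists_artD hχ
  obtain ⟨h1, h2⟩ := msq A
  have hl : ∀ t : ℝ, nn A.D A.n (t * I) = o χ t := fun t => (ordL_line A hχ t).symm
  have he : ∀ γ : ℝ, (o χ γ : ℝ) * ((o χ γ : ℝ) - 1) * (2 / (1 + γ ^ 2)) ^ 2 = e χ γ := fun _ => rfl
  have hh := hyp_iff A hχ
  simp only [hl, he] at h2
  rw [hh] at h1 h2
  refine ⟨h1, fun hO => ?_⟩
  obtain ⟨h3, h4⟩ := vf A (hh.2 hO)
  simp only [hl] at h3 h4
  obtain ⟨-, g1, g2, g3, g4, g5⟩ := h2 hO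
  rw [g3, h4] at g2
  exact ⟨h3, g1, g2, g4, g5⟩

lemma w_summable {χ : (M ≃ₐ[K] M) → ℂ} (h : Summable (fun γ : ℝ => |(o χ γ : ℝ)| / (1 + γ ^ 2))) :
    Summable (fun γ : ℝ => (o χ γ : ℝ) * (2 / (1 + γ ^ 2)) ^ 2) := by
  refine Summable.of_norm_bounded (h.mul_left 4) fun γ => ?_
  rw [norm_mul, Real.norm_eq_abs, Real.norm_of_nonneg (sq_nonneg (2 / (1 + γ ^ 2)))]
  have h1 : (0 : ℝ) < 1 + γ ^ 2 := by positivity
  have h2 : (2 / (1 + γ ^ 2)) ^ 2 ≤ 4 / (1 + γ ^ 2) := by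
    rw [div_pow, div_le_div_iff₀ (by positivity) h1]
    nlinarith [sq_nonneg γ]
  calc |(o χ γ : ℝ)| * (2 / (1 + γ ^ 2)) ^ 2 ≤ |(o χ γ : ℝ)| * (4 / (1 + γ ^ 2)) :=
        mul_le_mul_of_nonneg_left h2 (abs_nonneg _)
    _ = 4 * (|(o χ γ : ℝ)| / (1 + γ ^ 2)) := by ring

variable (K M)

/-- the mean of the sum of the squares -/
noncomputable def D2 (U : ℝ) : ℝ := (1 / U) * ∫ u in (0 : ℝ)..U, ∑ᶠ χ ∈ Irr (M ≃ₐ[K] M), (χ 1).re * ‖F χ u‖ ^ 2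

def AllOff : Prop := ∀ χ ∈ Irr (M ≃ₐ[K] M), Off χ

def Nonneg : Prop := ∀ χ ∈ Irr (M ≃ₐ[K] M), ∀ t : ℝ, 0 ≤ o χ t

def Simple : Prop := ∀ χ ∈ Irr (M ≃ₐ[K] M), ∀ t : ℝ, o χ t ≤ 1

def Upper2 (c : ℝ) : Prop := ∀ ε : ℝ, 0 < ε → ∀ᶠ U : ℝ in atTop, D2 K M U ≤ c + ε

variable {K M}

lemma fsum {β : Type*} [AddCommMonoid β] (f : ((M ≃ₐ[K] M) → ℂ) → β) :
    ∑ᶠ χ ∈ Irr (M ≃ₐ[K] M), f χ = ∑ χ ∈ irrF (M ≃ₐ[K] M), f χ :=
  finsum_mem_eq_finite_toFinset_sum f _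

lemma D2_eq (U : ℝ) : D2 K M U = ∑ χ ∈ irrF (M ≃ₐ[K] M), (χ 1).re * m χ U := by
  unfold D2 m
  have h1 : ∀ u, ∑ᶠ χ ∈ Irr (M ≃ₐ[K] M), (χ 1).re * ‖F χ u‖ ^ 2 = ∑ χ ∈ irrF (M ≃ₐ[K] M), (χ 1).re * ‖F χ u‖ ^ 2 :=
    fun u => fsum _
  simp only [h1]
  rw [intervalIntegral.integral_finsetSum, Finset.mul_sum]
  · refine Finset.sum_congr rfl fun χ _ => ?_
    rw [intervalIntegral.integral_const_mul]
    ring
  · intro χ _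
    have : Continuous fun u => (χ 1).re * ‖F χ u‖ ^ 2 := by
      have := F_cont χ
      fun_prop
    exact this.intervalIntegrable _ _

lemma deg_ge {χ : (M ≃ₐ[K] M) → ℂ} (hχ : χ ∈ Irr (M ≃ₐ[K] M)) : 1 ≤ (χ 1).re := by
  obtain ⟨n, h0, h1⟩ := exists_deg hχ
  rw [h1, Complex.natCast_re]
  exact_mod_cast h0

/-- the constant -/
lemma const_eq (hO : AllOff K M) : VF M = ∑ χ ∈ irrF (M ≃ₐ[K] M), (χ 1).re * ∑' γ : ℝ, (o χ γ : ℝ) * (2 / (1 + γ ^ 2)) ^ 2 := by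
  obtain ⟨D, hD⟩ := exists_ded M
  have hH : Hyp ![D] ![1] := by
    intro a ha
    unfold nn
    rw [Fin.sum_univ_one]
    have := field_hyp (K := K) (M := M) hO M hD a ha
    simp [this]
  obtain ⟨-, -, h2, -⟩ := Pool.Agent.Q24.NF.vf Pool.Agent.Q96.NF.pf (Fin 1) ![D] ![1] hH
  rw [Fin.sum_univ_one] at h2
  simp only [Matrix.cons_val_fin_one, Int.cast_one, one_mul] at h2
  rw [← ded_V hD, h2]
  have h3 : ∀ γ : ℝ, ((nn ![D] ![1] (γ * I) : ℤ) : ℝ) = ∑ χ ∈ irrF (M ≃ₐ[K] M), (χ 1).re * (o χ γ : ℝ) := by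
    intro γ
    have h4 : nn ![D] ![1] (γ * I) = ord M (1 / 2 + γ * I) := by
      unfold nn
      rw [Fin.sum_univ_one, ded_ord hD (by simp), if_neg, sub_zero]
      · simp only [Matrix.cons_val_fin_one, one_mul]
        congr 2
        ring
      · intro h
        have := congrArg Complex.re h
        norm_num at this
    rw [h4, rel_M (K := K) (M := M) (by simp)]
    rfl
  simp only [h3]
  have h5 : ∀ χ ∈ irrF (M ≃ₐ[K] M), Summable (fun γ : ℝ => (χ 1).re * ((o χ γ : ℝ) * (2 / (1 + γ ^ 2)) ^ 2)) :=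
    fun χ hχ => (w_summable ((one (mem_irrF.1 hχ)).2 (hO χ (mem_irrF.1 hχ))).1).mul_left _
  calc ∑' γ : ℝ, (∑ χ ∈ irrF (M ≃ₐ[K] M), (χ 1).re * (o χ γ : ℝ)) * (2 / (1 + γ ^ 2)) ^ 2 =
      ∑' γ : ℝ, ∑ χ ∈ irrF (M ≃ₐ[K] M), (χ 1).re * ((o χ γ : ℝ) * (2 / (1 + γ ^ 2)) ^ 2) := by
        refine tsum_congr fun γ => ?_
        rw [Finset.sum_mul]
        exact Finset.sum_congr rfl fun χ _ => by ring
    _ = ∑ χ ∈ irrF (M ≃ₐ[K] M), ∑' γ : ℝ, (χ 1).re * ((o χ γ : ℝ) * (2 / (1 + γ ^ 2)) ^ 2) :=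
        Summable.tsum_finsetSum h5
    _ = _ := Finset.sum_congr rfl fun χ _ => tsum_mul_left

/-- the main theorem on the mean squares -/
theorem main1 :
    (AllOff K M ↔ ∃ C : ℝ, ∀ᶠ U : ℝ in atTop, D2 K M U ≤ C) ∧
    (AllOff K M → (∀ χ ∈ Irr (M ≃ₐ[K] M), Summable (e χ)) ∧
      Tendsto (D2 K M) atTop (𝓝 (VF M + ∑ᶠ χ ∈ Irr (M ≃ₐ[K] M), (χ 1).re * ∑' γ : ℝ, e χ γ))) ∧
    ((AllOff K M ∧ Nonneg K M ∧ Simple K M) ↔ Upper2 K M (VF M)) ∧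
    ((AllOff K M ∧ Nonneg K M ∧ Simple K M) ↔ Tendsto (D2 K M) atTop (𝓝 (VF M))) ∧
    ∀ δ : ℝ, Upper2 K M (VF M + δ) → AllOff K M ∧ ∀ χ ∈ Irr (M ≃ₐ[K] M), ∀ t : ℝ, (χ 1).re * e χ t ≤ δ := by
  have key : AllOff K M → (∀ χ ∈ Irr (M ≃ₐ[K] M), Summable (e χ)) ∧
      Tendsto (D2 K M) atTop (𝓝 (VF M + ∑ᶠ χ ∈ Irr (M ≃ₐ[K] M), (χ 1).re * ∑' γ : ℝ, e χ γ)) := by
    intro hO
    refine ⟨fun χ hχ => ((one hχ).2 (hO χ hχ)).2.1, ?_⟩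
    rw [fsum, const_eq hO, ← Finset.sum_add_distrib]
    have h1 : D2 K M = fun U => ∑ χ ∈ irrF (M ≃ₐ[K] M), (χ 1).re * m χ U := funext fun U => D2_eq U
    rw [h1]
    refine tendsto_finsetSum _ fun χ hχ => ?_
    rw [← mul_add]
    exact ((one (mem_irrF.1 hχ)).2 (hO χ (mem_irrF.1 hχ))).2.2.1.const_mul _
  have bdd : (∃ C : ℝ, ∀ᶠ U : ℝ in atTop, D2 K M U ≤ C) → AllOff K M := by
    rintro ⟨C, hC⟩ χ hχ
    refine (one hχ).1.2 ⟨C, ?_⟩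
    filter_upwards [hC, eventually_gt_atTop 0] with U hU hU0
    rw [D2_eq] at hU
    have h1 : (χ 1).re * m χ U ≤ ∑ χ ∈ irrF (M ≃ₐ[K] M), (χ 1).re * m χ U :=
      Finset.single_le_sum (f := fun χ : (M ≃ₐ[K] M) → ℂ => (χ 1).re * m χ U)
        (fun ψ hψ => mul_nonneg (zero_le_one.trans (deg_ge (mem_irrF.1 hψ))) (m_nonneg ψ hU0)) (mem_irrF.2 hχ)
    have h2 : m χ U ≤ (χ 1).re * m χ U := le_mul_of_one_le_left (m_nonneg χ hU0) (deg_ge hχ)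
    linarith
  have h1 : AllOff K M ↔ ∃ C : ℝ, ∀ᶠ U : ℝ in atTop, D2 K M U ≤ C := by
    refine ⟨fun hO => ?_, bdd⟩
    exact ⟨_, ((key hO).2.eventually_lt_const (lt_add_one _)).mono fun U hU => hU.le⟩
  have last : ∀ δ : ℝ, Upper2 K M (VF M + δ) → AllOff K M ∧ ∀ χ ∈ Irr (M ≃ₐ[K] M), ∀ t : ℝ, (χ 1).re * e χ t ≤ δ := by
    intro δ hδ
    have hO : AllOff K M := bdd ⟨_, hδ 1 one_pos⟩
    refine ⟨hO, fun χ hχ t => ?_⟩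
    obtain ⟨hs, ht⟩ := key hO
    have h3 : ∑ᶠ χ ∈ Irr (M ≃ₐ[K] M), (χ 1).re * ∑' γ : ℝ, e χ γ ≤ δ := by
      refine le_of_forall_pos_le_add fun ε hε => ?_
      have := le_of_tendsto ht (hδ ε hε)
      linarith
    rw [fsum] at h3
    have h4 : (χ 1).re * ∑' γ : ℝ, e χ γ ≤ ∑ χ ∈ irrF (M ≃ₐ[K] M), (χ 1).re * ∑' γ : ℝ, e χ γ :=
      Finset.single_le_sum (f := fun χ : (M ≃ₐ[K] M) → ℂ => (χ 1).re * ∑' γ : ℝ, e χ γ)
        (fun ψ hψ => mul_nonneg (zero_le_one.trans (deg_ge (mem_irrF.1 hψ))) (tsum_nonneg fun γ => e_nonneg ψ γ)) (mem_irrF.2 hχ)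
    have h5 : (χ 1).re * e χ t ≤ (χ 1).re * ∑' γ : ℝ, e χ γ :=
      mul_le_mul_of_nonneg_left ((hs χ hχ).le_tsum t fun γ _ => e_nonneg χ γ) (zero_le_one.trans (deg_ge hχ))
    linarith
  have ex0 : (AllOff K M ∧ Nonneg K M ∧ Simple K M) → Tendsto (D2 K M) atTop (𝓝 (VF M)) := by
    rintro ⟨hO, hN, hS⟩
    have h3 := (key hO).2
    have h4 : ∑ᶠ χ ∈ Irr (M ≃ₐ[K] M), (χ 1).re * ∑' γ : ℝ, e χ γ = 0 := by
      rw [fsum]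
      refine Finset.sum_eq_zero fun χ hχ => ?_
      have h5 : ∀ γ, e χ γ = 0 := fun γ => e_eq_zero (hN χ (mem_irrF.1 hχ) γ) (hS χ (mem_irrF.1 hχ) γ)
      simp [h5]
    rw [h4, add_zero] at h3
    exact h3
  have lim_up : Tendsto (D2 K M) atTop (𝓝 (VF M)) → Upper2 K M (VF M) :=
    fun h ε hε => (h.eventually_lt_const (by linarith)).mono fun U hU => hU.le
  have up_all : Upper2 K M (VF M) → (AllOff K M ∧ Nonneg K M ∧ Simple K M) := by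
    intro h
    obtain ⟨hO, h3⟩ := last 0 (by simpa using h)
    have h4 : ∀ χ ∈ Irr (M ≃ₐ[K] M), ∀ t : ℝ, 0 ≤ o χ t ∧ o χ t ≤ 1 := by
      intro χ hχ t
      refine e_zero ?_
      have h5 := h3 χ hχ t
      have h6 := deg_ge hχ
      have h7 := e_nonneg χ t
      nlinarith
    exact ⟨hO, fun χ hχ t => (h4 χ hχ t).1, fun χ hχ t => (h4 χ hχ t).2⟩
  exact ⟨h1, key, ⟨fun h => lim_up (ex0 h), up_all⟩, ⟨ex0, fun h => up_all (lim_up h)⟩, last⟩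

end

end Pool.Agent.Q253.NF.G
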