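import Pool.Agent.Q253.NF.G4
import Pool.Agent.Q166.NF.KT
import Pool.Agent.Q129.NF.Expm
import Pool.Agent.Q129.NF.Momt
import Pool.Agent.Q182.NF.RAT
import Pool.Agent.Q68.LM.RL
import Pool.Agent.Q68.LM.LI

set_option autoImplicit false
set_option linter.unusedSectionVars false

/-! # Project NF: the Artin L-functions of a Galois extension, fifth part: the sum over all characters -/

namespace Pool.Agent.Q253.NF.G

open MeasureTheory Filter Topology Set Complex NumberField IsDedekindDomain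
open Pool.Agent.Q92.AR (Unramified frob Continues LP artinL fixer)
open Pool.Agent.Q92.RT (induced)
open Pool.Agent.H541R3.ART (Irr irrF mem_irrF)
open Pool.Agent.Q253.LQ (I0)
open Pool.Agent.Q253.LM (NoRel IdxM)
open scoped ComplexConjugate

lemma li_congr {p q : ℝ → Prop} (h : ∀ γ, p γ ↔ q γ) :
    LinearIndependent ℚ (fun γ : {γ : ℝ // p γ} => (γ : ℝ)) ↔ LinearIndependent ℚ (fun γ : {γ : ℝ // q γ} => (γ : ℝ)) := by
  obtain rfl : p = q := funext fun γ => propext (h γ)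
  rfl

lemma norel_congr {p q : ℝ → Prop} (h : ∀ γ, p γ ↔ q γ) (k : ℕ) :
    NoRel (fun γ : {γ : ℝ // p γ} => (γ : ℝ)) k ↔ NoRel (fun γ : {γ : ℝ // q γ} => (γ : ℝ)) k := by
  obtain rfl : p = q := funext fun γ => propext (h γ)
  rfl

/-- independence with multiplicities -/
lemma li_idx (N : ℝ → ℕ) : LinearIndependent ℚ (fun i : IdxM N => (i.1 : ℝ)) ↔
    (∀ γ : ℝ, 0 < γ → N γ ≤ 1) ∧ LinearIndependent ℚ (fun γ : {γ : ℝ // 0 < γ ∧ N γ ≠ 0} => (γ : ℝ)) := by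
  rw [Pool.Agent.Q68.LM.t_LI, Pool.Agent.Q68.LM.t_LI]
  constructor
  · intro h
    refine ⟨((Pool.Agent.Q68.LM.t_RL N 2).1 (h 2)).2 even_two le_rfl, fun k => ((Pool.Agent.Q68.LM.t_RL N k).1 (h k)).1⟩
  · rintro ⟨h1, h2⟩ k
    exact (Pool.Agent.Q68.LM.t_RL N k).2 ⟨h2 k, fun _ _ => h1⟩

section
variable (K M : Type) [Field K] [NumberField K] [Field M] [NumberField M] [Algebra K M] [IsGalois K M]

/-- the sum over all characters -/
noncomputable def fE (u : ℝ) : ℝ := -(∑ᶠ χ ∈ Irr (M ≃ₐ[K] M), F χ u).re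

/-- the total order on the line -/
noncomputable def tot (γ : ℝ) : ℤ := ∑ᶠ χ ∈ Irr (M ≃ₐ[K] M), o χ γ

/-- the circle function -/
noncomputable def circ (r : Subgroup (M ≃ₐ[K] M) → ℚ) (t : ℂ) : ℂ :=
  (1 - t) ^ (-(1 / 2) : ℂ) * ∑ᶠ H : Subgroup (M ≃ₐ[K] M),
    (r H : ℂ) * logDeriv (xiF (IntermediateField.fixedField H)) (1 / 2 + (1 - t) ^ (1 / 2 : ℂ))

/-- the rational numbers represent the sum of the irreducible characters -/
def Rep (r : Subgroup (M ≃ₐ[K] M) → ℚ) : Prop :=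
  ∀ g, ∑ᶠ χ ∈ Irr (M ≃ₐ[K] M), χ g = ∑ᶠ H : Subgroup (M ≃ₐ[K] M), (r H : ℂ) * induced H 1 g

lemma exists_rep : ∃ r, Rep K M r := Pool.Agent.Q182.NF.rat (M ≃ₐ[K] M)

variable {K M}

lemma tot_eq (γ : ℝ) : tot K M γ = ∑ χ ∈ irrF (M ≃ₐ[K] M), o χ γ := fsum _

lemma tot_nonneg (hN : Nonneg K M) (γ : ℝ) : 0 ≤ tot K M γ := by
  rw [tot_eq]
  exact Finset.sum_nonneg fun χ hχ => hN χ (mem_irrF.1 hχ) γ

lemma tot_nat (hN : Nonneg K M) (γ : ℝ) : (((tot K M γ).toNat : ℕ) : ℤ) = tot K M γ :=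
  Int.toNat_of_nonneg (tot_nonneg hN γ)

lemma tot_real (hN : Nonneg K M) (γ : ℝ) : (((tot K M γ).toNat : ℕ) : ℝ) = ∑ χ ∈ irrF (M ≃ₐ[K] M), (o χ γ : ℝ) := by
  have h := tot_nat hN γ
  rw [tot_eq] at h
  rw [tot_eq]
  exact_mod_cast h

/-- the relation on the line -/
lemma rel_line {r : Subgroup (M ≃ₐ[K] M) → ℚ} (hr : Rep K M r) {D : Subgroup (M ≃ₐ[K] M) → Dat}
    (hD : ∀ H, IsDed (IntermediateField.fixedField H) (D H)) (γ : ℝ) :
    ∑ᶠ H : Subgroup (M ≃ₐ[K] M), r H * ((D H).m (γ * I) : ℚ) = (tot K M γ : ℚ) := by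
  have h1 := rel_r (K := K) (M := M) r (fun g => by rw [← fsum]; exact hr g) (s := 1 / 2 + γ * I) (by simp)
  rw [tot_eq]
  push_cast
  have h2 : ∑ χ ∈ irrF (M ≃ₐ[K] M), (ordL χ (1 / 2 + γ * I) : ℚ) = ∑ χ ∈ irrF (M ≃ₐ[K] M), (o χ γ : ℚ) := rfl
  rw [← h2, ← h1]
  refine finsum_congr fun H => ?_
  rw [ded_ord (hD H) (by simp), if_neg, sub_zero]
  · congr 1
    push_cast
    congr 2
    ring
  · intro h
    have := congrArg Complex.re h
    norm_num at this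

lemma tot_neg (γ : ℝ) : tot K M (-γ) = tot K M γ := by
  obtain ⟨r, hr⟩ := exists_rep K M
  choose D hD using fun H : Subgroup (M ≃ₐ[K] M) => exists_ded (IntermediateField.fixedField H)
  have h1 := rel_line hr hD γ
  have h2 := rel_line hr hD (-γ)
  have h3 : ∀ H, (D H).m (((-γ : ℝ) : ℂ) * I) = (D H).m (γ * I) := by
    intro H
    rw [← (hD H).m_neg]
    congr 1
    push_cast
    ring
  simp only [h3] at h2
  rw [h1] at h2
  exact_mod_cast h2.symm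

lemma circ_eq {r : Subgroup (M ≃ₐ[K] M) → ℚ} (hr : Rep K M r) (hO : AllOff K M) (hN : Nonneg K M) (t : ℂ) (ht : ‖t‖ = 1 / 2) :
    circ K M r t = ∑' γ : ℝ, (((tot K M γ).toNat : ℕ) : ℂ) / (1 + (γ : ℂ) ^ 2 - t) := by
  have : Fintype (Subgroup (M ≃ₐ[K] M)) := Fintype.ofFinite _
  choose D hD using fun H : Subgroup (M ≃ₐ[K] M) => exists_ded (IntermediateField.fixedField H)
  obtain ⟨h1, h2⟩ := Pool.Agent.Q166.NF.kt Pool.Agent.Q96.NF.pf (Subgroup (M ≃ₐ[K] M)) D r (fun γ => (tot K M γ).toNat)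
    (fun H => (hD H).ev) (fun H a ha => field_hyp (K := K) (M := M) hO _ (hD H) a ha) (fun γ => by
      have h3 := rel_line hr hD γ
      rw [finsum_eq_sum_of_fintype] at h3
      rw [h3]
      have h4 := tot_nat hN γ
      exact_mod_cast h4.symm) t ht
  rw [← h2]
  unfold circ
  rw [finsum_eq_sum_of_fintype]
  congr 1
  exact Finset.sum_congr rfl fun H _ => by rw [ded_logDeriv (hD H) h1]

lemma fE_eq (u : ℝ) : fE K M u = -(∑ χ ∈ irrF (M ≃ₐ[K] M), F χ u).re := by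
  unfold fE
  rw [fsum]

lemma fE_cont : Continuous (fE K M) := by
  have h1 : fE K M = fun u => -(∑ χ ∈ irrF (M ≃ₐ[K] M), F χ u).re := funext fE_eq
  rw [h1]
  exact (Complex.continuous_re.comp (continuous_finsetSum _ fun χ _ => F_cont χ)).neg

lemma apf (hO : AllOff K M) (hN : Nonneg K M) : APF (fun γ => (tot K M γ).toNat) (fE K M) := by
  have hs : ∀ χ ∈ irrF (M ≃ₐ[K] M), Summable (fun γ : ℝ => |(o χ γ : ℝ)| / (1 + γ ^ 2)) :=
    fun χ hχ => ((one (mem_irrF.1 hχ)).2 (hO χ (mem_irrF.1 hχ))).1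
  have hsum : Summable (fun γ : ℝ => (((tot K M γ).toNat : ℕ) : ℝ) / (1 + γ ^ 2)) := by
    refine (summable_sum hs).congr fun γ => ?_
    rw [tot_real hN, Finset.sum_div]
    exact Finset.sum_congr rfl fun χ hχ => by rw [abs_of_nonneg]; exact_mod_cast hN χ (mem_irrF.1 hχ) γ
  refine ⟨fun γ => by rw [tot_neg], hsum, fE_cont, ?_⟩
  have hc : ∀ χ : (M ≃ₐ[K] M) → ℂ, ∃ C : ℝ, χ ∈ irrF (M ≃ₐ[K] M) → ∀ u : ℝ, 0 ≤ u →
        ‖-F χ u - ∑' γ : ℝ, (((o χ γ : ℝ) * (2 / (1 + γ ^ 2)) : ℝ) : ℂ) * cexp (I * γ * u)‖ ≤ C * Real.exp (-(u / 4)) := by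
    intro χ
    by_cases hχ : χ ∈ irrF (M ≃ₐ[K] M)
    · obtain ⟨C, hC⟩ := ((one (mem_irrF.1 hχ)).2 (hO χ (mem_irrF.1 hχ))).2.2.2.2
      exact ⟨C, fun _ => hC⟩
    · exact ⟨0, fun h => absurd h hχ⟩
  choose C hC using hc
  refine ⟨∑ χ ∈ irrF (M ≃ₐ[K] M), C χ, fun u hu => ?_⟩
  have hterm : ∀ χ ∈ irrF (M ≃ₐ[K] M), Summable (fun γ : ℝ =>
      (((o χ γ : ℝ) * (2 / (1 + γ ^ 2)) : ℝ) : ℂ) * cexp (I * γ * u)) := by
    intro χ hχ
    refine Summable.of_norm_bounded ((hs χ hχ).mul_left 2) fun γ => ?_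
    rw [norm_mul, Complex.norm_real, Complex.norm_exp]
    have h1 : (I * (γ : ℂ) * (u : ℂ)).re = 0 := by simp
    rw [h1, Real.exp_zero, mul_one, Real.norm_eq_abs, abs_mul, abs_of_pos (a := 2 / (1 + γ ^ 2)) (by positivity)]
    exact le_of_eq (by ring)
  set S : ℂ := ∑' γ : ℝ, (((((tot K M γ).toNat : ℕ) : ℝ) * (2 / (1 + γ ^ 2)) : ℝ) : ℂ) * cexp (I * γ * u) with hS
  have hS1 : S = ∑ χ ∈ irrF (M ≃ₐ[K] M), ∑' γ : ℝ, (((o χ γ : ℝ) * (2 / (1 + γ ^ 2)) : ℝ) : ℂ) * cexp (I * γ * u) := by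
    rw [hS, ← Summable.tsum_finsetSum hterm]
    refine tsum_congr fun γ => ?_
    rw [tot_real hN, ← Finset.sum_mul]
    push_cast
    rw [Finset.sum_mul]
  have hS2 : conj S = S := by
    have h1 : conj S = ∑' γ : ℝ, (((((tot K M γ).toNat : ℕ) : ℝ) * (2 / (1 + γ ^ 2)) : ℝ) : ℂ) * cexp (-(I * γ * u)) := by
      rw [hS, Complex.conj_tsum]
      refine tsum_congr fun γ => ?_
      rw [map_mul, Complex.conj_ofReal, ← Complex.exp_conj]
      congr 2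
      simp
    rw [h1, hS, ← (Equiv.neg ℝ).tsum_eq]
    refine tsum_congr fun γ => ?_
    simp only [Equiv.neg_apply]
    rw [tot_neg, neg_sq]
    congr 2
    push_cast
    ring
  have hS3 : (fE K M u : ℂ) - S = (((-(∑ χ ∈ irrF (M ≃ₐ[K] M), F χ u) - S).re : ℝ) : ℂ) := by
    rw [fE_eq]
    have h1 : S = ((S.re : ℝ) : ℂ) := (Complex.conj_eq_iff_real.1 hS2).elim fun r hr => by rw [hr, Complex.ofReal_re]
    rw [Complex.sub_re, Complex.neg_re, Complex.ofReal_sub]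
    rw [← h1]
  change ‖(fE K M u : ℂ) - S‖ ≤ _
  rw [hS3, Complex.norm_real, Real.norm_eq_abs]
  refine (Complex.abs_re_le_norm _).trans ?_
  have h2 : -(∑ χ ∈ irrF (M ≃ₐ[K] M), F χ u) - S = ∑ χ ∈ irrF (M ≃ₐ[K] M),
      (-F χ u - ∑' γ : ℝ, (((o χ γ : ℝ) * (2 / (1 + γ ^ 2)) : ℝ) : ℂ) * cexp (I * γ * u)) := by
    rw [hS1, Finset.sum_sub_distrib, Finset.sum_neg_distrib]
  rw [h2, Finset.sum_mul]
  exact (norm_sum_le _ _).trans (Finset.sum_le_sum fun χ hχ => hC χ hχ u hu)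

end

end Pool.Agent.Q253.NF.G
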