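import Pool.Agent.Q253.NF.G5

set_option autoImplicit false
set_option linter.unusedSectionVars false

/-! # Project NF: the Artin L-functions of a Galois extension, sixth part: exponential means and moments -/

namespace Pool.Agent.Q253.NF.G

open MeasureTheory Filter Topology Set Complex NumberField IsDedekindDomain
open Pool.Agent.H541R3.ART (Irr irrF mem_irrF)
open Pool.Agent.Q253.LQ (I0)
open Pool.Agent.Q253.LM (NoRel IdxM)
open scoped ComplexConjugate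

section
variable (K M : Type) [Field K] [NumberField K] [Field M] [NumberField M] [Algebra K M] [IsGalois K M]

/-- symplectic characters: indicator `-1` -/
def Sympl {G : Type} [Group G] (χ : G → ℂ) : Prop := ∑ᶠ g : G, χ (g ^ 2) = -(Nat.card G : ℂ)

/-- the number of the symplectic characters with odd central order -/
noncomputable def nMinus : ℕ := {χ : (M ≃ₐ[K] M) → ℂ | χ ∈ Irr (M ≃ₐ[K] M) ∧ Sympl χ ∧ Odd (o χ 0)}.ncard

/-- independence -/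
def LI : Prop := (∀ γ : ℝ, 0 < γ → tot K M γ ≤ 1) ∧
  LinearIndependent ℚ (fun γ : {γ : ℝ // 0 < γ ∧ tot K M γ ≠ 0} => (γ : ℝ))

/-- central values -/
def Cen : Prop := ∀ χ ∈ Irr (M ≃ₐ[K] M), ¬ Sympl χ → o χ 0 = 0

/-- symplectic characters: minimal central order -/
def Sym3 : Prop := ∀ χ ∈ Irr (M ≃ₐ[K] M), Sympl χ → o χ 0 = if Even (o χ 0) then 0 else 1

/-- the exponential mean -/
noncomputable def ME (lam U : ℝ) : ℝ := (1 / U) * ∫ u in (0 : ℝ)..U, Real.exp (lam * fE K M u)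

/-- the moments -/
noncomputable def MM (k : ℕ) (U : ℝ) : ℝ := (1 / U) * ∫ u in (0 : ℝ)..U, (fE K M u - 2 * tot K M 0) ^ k

/-- no relations -/
def NR (k : ℕ) : Prop := NoRel (fun γ : {γ : ℝ // 0 < γ ∧ tot K M γ ≠ 0} => (γ : ℝ)) k

open Classical in
/-- the limits of the moments -/
noncomputable def TT (k : ℕ) : ℝ :=
  ∑' s : Fin k → ℝ, if ∑ l, s l = 0 ∧ ∀ l, s l ≠ 0 then ∏ l, (tot K M (s l) : ℝ) * (2 / (1 + s l ^ 2)) else 0

variable {K M}

lemma tot_iff (hN : Nonneg K M) (γ : ℝ) : (tot K M γ).toNat ≠ 0 ↔ tot K M γ ≠ 0 := by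
  have := tot_nat hN γ
  omega

lemma li_iff (hN : Nonneg K M) :
    LinearIndependent ℚ (fun i : IdxM (fun γ => (tot K M γ).toNat) => (i.1 : ℝ)) ↔ LI K M := by
  rw [li_idx]
  unfold LI
  refine and_congr ?_ (li_congr fun γ => and_congr_right fun _ => tot_iff hN γ)
  refine forall_congr' fun γ => forall_congr' fun _ => ?_
  have := tot_nat hN γ
  omega

/-- the central orders -/
lemma central (hN : Nonneg K M) (hS : Simple K M) :
    nMinus K M ≤ (tot K M 0).toNat ∧ ((tot K M 0).toNat = nMinus K M ↔ Cen K M) := by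
  classical
  have h01 : ∀ χ ∈ irrF (M ≃ₐ[K] M), (o χ 0 = 0 ∧ ¬ Odd (o χ 0)) ∨ (o χ 0 = 1 ∧ Odd (o χ 0)) := by
    intro χ hχ
    have h1 := hN χ (mem_irrF.1 hχ) 0
    have h2 := hS χ (mem_irrF.1 hχ) 0
    have h3 : o χ 0 = 0 ∨ o χ 0 = 1 := by omega
    rcases h3 with h3 | h3
    · left
      refine ⟨h3, ?_⟩
      rw [h3]
      decide
    · right
      refine ⟨h3, ?_⟩
      rw [h3]
      decide
  have h1 : (tot K M 0).toNat = ((irrF (M ≃ₐ[K] M)).filter fun χ => Odd (o χ 0)).card := by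
    have h2 : tot K M 0 = (((irrF (M ≃ₐ[K] M)).filter fun χ => Odd (o χ 0)).card : ℤ) := by
      rw [tot_eq, Finset.card_filter]
      push_cast
      refine Finset.sum_congr rfl fun χ hχ => ?_
      rcases h01 χ hχ with ⟨h3, h4⟩ | ⟨h3, h4⟩
      · rw [if_neg h4, h3]
      · rw [if_pos h4, h3]
    rw [h2, Int.toNat_natCast]
  have h2 : nMinus K M = ((irrF (M ≃ₐ[K] M)).filter fun χ => Sympl χ ∧ Odd (o χ 0)).card := by
    unfold nMinus
    rw [← Set.ncard_coe_finset]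
    congr 1
    ext χ
    simp only [Set.mem_setOf_eq, Finset.coe_filter, mem_irrF]
  have hsub : ((irrF (M ≃ₐ[K] M)).filter fun χ => Sympl χ ∧ Odd (o χ 0)) ⊆
      ((irrF (M ≃ₐ[K] M)).filter fun χ => Odd (o χ 0)) := by
    intro χ hχ
    rw [Finset.mem_filter] at hχ ⊢
    exact ⟨hχ.1, hχ.2.2⟩
  refine ⟨by rw [h1, h2]; exact Finset.card_le_card hsub, ?_⟩
  rw [h1, h2]
  constructor
  · intro h χ hχ hs
    have h3 := Finset.eq_of_subset_of_card_le hsub h.le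
    rcases h01 χ (mem_irrF.2 hχ) with h4 | h4
    · exact h4.1
    · exfalso
      have h5 : χ ∈ ((irrF (M ≃ₐ[K] M)).filter fun χ => Odd (o χ 0)) := Finset.mem_filter.2 ⟨mem_irrF.2 hχ, h4.2⟩
      rw [← h3, Finset.mem_filter] at h5
      exact hs h5.2.1
  · intro h
    congr 1
    ext χ
    rw [Finset.mem_filter, Finset.mem_filter]
    constructor
    · rintro ⟨h3, h4⟩
      refine ⟨h3, ?_, h4⟩
      by_contra h5
      rw [h χ (mem_irrF.1 h3) h5] at h4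
      exact absurd h4 (by decide)
    · rintro ⟨h3, h4, h5⟩
      exact ⟨h3, h5⟩

lemma sym3 (hN : Nonneg K M) (hS : Simple K M) : Sym3 K M := by
  intro χ hχ _
  have h1 := hN χ hχ 0
  have h2 := hS χ hχ 0
  have h3 : o χ 0 = 0 ∨ o χ 0 = 1 := by omega
  rcases h3 with h3 | h3
  · rw [h3]; decide
  · rw [h3]; decide

/-- **the exponential mean** -/
theorem main2 {r : Subgroup (M ≃ₐ[K] M) → ℚ} (hr : Rep K M r) {lam : ℝ} (h0 : 0 < lam) (h8 : lam ≤ 1 / 8) :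
    ((AllOff K M ∧ Nonneg K M ∧ Simple K M ∧ LI K M ∧ Cen K M ∧ Sym3 K M) ↔ (Upper2 K M (VF M) ∧
      ∀ ε : ℝ, 0 < ε → ∀ᶠ U : ℝ in atTop, ME K M lam U ≤ RR (circ K M r) lam * gg lam ^ nMinus K M + ε)) ∧
    ((AllOff K M ∧ Nonneg K M ∧ Simple K M ∧ LI K M ∧ Cen K M ∧ Sym3 K M) ↔ (Upper2 K M (VF M) ∧
      Tendsto (ME K M lam) atTop (𝓝 (RR (circ K M r) lam * gg lam ^ nMinus K M)))) ∧
    ((AllOff K M ∧ Nonneg K M ∧ Simple K M) → ∀ ε : ℝ, 0 < ε → ∀ᶠ U : ℝ in atTop,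
      RR (circ K M r) lam * gg lam ^ nMinus K M - ε ≤ ME K M lam U) := by
  have key : (AllOff K M ∧ Nonneg K M ∧ Simple K M) →
      ((LI K M ∧ Cen K M) ↔ ∀ ε : ℝ, 0 < ε → ∀ᶠ U : ℝ in atTop, ME K M lam U ≤ RR (circ K M r) lam * gg lam ^ nMinus K M + ε) ∧
      ((LI K M ∧ Cen K M) ↔ Tendsto (ME K M lam) atTop (𝓝 (RR (circ K M r) lam * gg lam ^ nMinus K M))) ∧
      ∀ ε : ℝ, 0 < ε → ∀ᶠ U : ℝ in atTop, RR (circ K M r) lam * gg lam ^ nMinus K M - ε ≤ ME K M lam U := by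
    rintro ⟨hO, hN, hS⟩
    obtain ⟨h1, h2⟩ := central hN hS
    obtain ⟨h3, h4, h5⟩ := Pool.Agent.Q129.NF.t_EXPM (fun γ => (tot K M γ).toNat) (fE K M) (circ K M r) lam (nMinus K M)
      (apf hO hN) (circ_eq hr hO hN) h0 h8 h1
    rw [h2, li_iff hN, and_comm] at h3 h4
    exact ⟨h3, h4, h5⟩
  have hup := (main1 (K := K) (M := M)).2.2.1
  refine ⟨⟨?_, ?_⟩, ⟨?_, ?_⟩, fun h => (key h).2.2⟩
  · rintro ⟨hO, hN, hS, hL, hC, -⟩
    exact ⟨hup.1 ⟨hO, hN, hS⟩, (key ⟨hO, hN, hS⟩).1.1 ⟨hL, hC⟩⟩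
  · rintro ⟨h1, h2⟩
    have h3 := hup.2 h1
    have h4 := (key h3).1.2 h2
    exact ⟨h3.1, h3.2.1, h3.2.2, h4.1, h4.2, sym3 h3.2.1 h3.2.2⟩
  · rintro ⟨hO, hN, hS, hL, hC, -⟩
    exact ⟨hup.1 ⟨hO, hN, hS⟩, (key ⟨hO, hN, hS⟩).2.1.1 ⟨hL, hC⟩⟩
  · rintro ⟨h1, h2⟩
    have h3 := hup.2 h1
    have h4 := (key h3).2.1.2 h2
    exact ⟨h3.1, h3.2.1, h3.2.2, h4.1, h4.2, sym3 h3.2.1 h3.2.2⟩

/-- the function whose derivatives are the trivial parts of the moments -/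
noncomputable def QQ (r : Subgroup (M ≃ₐ[K] M) → ℚ) (lam : ℝ) : ℝ :=
  RR (circ K M r) lam / Real.sqrt (I0 ((4 * lam : ℝ) : ℂ)).re ^ (tot K M 0).toNat

/-- **the moments** -/
theorem main3 {r : Subgroup (M ≃ₐ[K] M) → ℚ} (hr : Rep K M r) (hO : AllOff K M) (hN : Nonneg K M) :
    Tendsto (fun U : ℝ => (1 / U) * ∫ u in (0 : ℝ)..U, fE K M u) atTop (𝓝 (2 * (tot K M 0 : ℝ))) ∧
    ∀ k : ℕ, Tendsto (MM K M k) atTop (𝓝 (TT K M k)) ∧
      (Odd k → iteratedDeriv k (QQ r) 0 = 0) ∧ iteratedDeriv k (QQ r) 0 ≤ TT K M k ∧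
      (TT K M k = iteratedDeriv k (QQ r) 0 ↔
        NR K M k ∧ (Even k → 2 ≤ k → ∀ γ : ℝ, 0 < γ → tot K M γ ≤ 1)) := by
  classical
  obtain ⟨h1, h2⟩ := Pool.Agent.Q129.NF.t_MOMT (fun γ => (tot K M γ).toNat) (fE K M) (circ K M r)
    (apf hO hN) (circ_eq hr hO hN)
  have hc : ∀ γ, (((tot K M γ).toNat : ℕ) : ℝ) = (tot K M γ : ℝ) := by
    intro γ
    have := tot_nat hN γ
    exact_mod_cast this
  have hT : ∀ k, TN (fun γ => (tot K M γ).toNat) k = TT K M k := by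
    intro k
    unfold TN TT
    simp only [hc]
  refine ⟨by simpa only [hc] using h1, fun k => ?_⟩
  obtain ⟨g1, g2, g3, g4⟩ := h2 k
  rw [hT] at g1 g3 g4
  refine ⟨?_, g2, g3, ?_⟩
  · refine g1.congr fun U => ?_
    unfold MM
    simp only [hc]
  · refine g4.trans (and_congr (norel_congr (fun γ => and_congr_right fun _ => tot_iff hN γ) k) ?_)
    refine forall_congr' fun _ => forall_congr' fun _ => forall_congr' fun γ => forall_congr' fun _ => ?_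
    have := tot_nat hN γ
    omega

end

end Pool.Agent.Q253.NF.G
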