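import Pool.Agent.Q253.NF.G6
import Pool.Agent.Q124.NF.LE

set_option autoImplicit false
set_option linter.unusedSectionVars false

/-! # Project NF: the Artin L-functions of a Galois extension, seventh part: one inequality, given Artin's conjecture -/

namespace Pool.Agent.Q253.NF.G

open MeasureTheory Filter Topology Set Complex NumberField IsDedekindDomain
open Pool.Agent.Q92.AR (Unramified frob Continues LP artinL fixer)
open Pool.Agent.Q92.RT (induced)
open Pool.Agent.H541R3.ART (Irr irrF mem_irrF)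
open Pool.Agent.Q253.LQ (I0)
open Pool.Agent.Q253.LM (NoRel IdxM)
open scoped ComplexConjugate

section
variable (K M : Type) [Field K] [NumberField K] [Field M] [NumberField M] [Algebra K M] [IsGalois K M]

/-- Artin's conjecture in `Re s > 0` -/
def ArtinH : Prop := ∀ χ ∈ Irr (M ≃ₐ[K] M), ∀ s : ℂ, 0 < s.re → (s = 1 → ¬ ∀ g, χ g = 1) → 0 ≤ ordL χ s

variable {K M}

/-- the sum of the irreducible characters is real -/
lemma sum_conj (g : M ≃ₐ[K] M) : conj (∑ χ ∈ irrF (M ≃ₐ[K] M), χ g) = ∑ χ ∈ irrF (M ≃ₐ[K] M), χ g := by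
  classical
  have : Fintype (Subgroup (M ≃ₐ[K] M)) := Fintype.ofFinite _
  obtain ⟨r, hr⟩ := exists_rep K M
  have h1 := hr g
  rw [fsum] at h1
  rw [h1, finsum_eq_sum_of_fintype, map_sum]
  refine Finset.sum_congr rfl fun H _ => ?_
  have h2 : induced H 1 g = (((Nat.card {x : (M ≃ₐ[K] M) ⧸ H // g • x = x} : ℚ)) : ℂ) := Pool.Agent.Q182.NF.induced_perm H g
  rw [h2, map_mul]
  congr 1
  · rw [Complex.conj_eq_iff_im]
    simp
  · rw [Complex.conj_eq_iff_im]
    simp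

/-- `ks` of a real function -/
lemma ks_conj {F : Type} [Field F] [NumberField F] (P : Set (HeightOneSpectrum (𝓞 F)))
    (c : HeightOneSpectrum (𝓞 F) → ℕ → ℂ) (hc : ∀ v n, conj (c v n) = c v n) (u : ℝ) : conj (ks P c u) = ks P c u := by
  classical
  unfold ks
  rw [Complex.conj_tsum]
  refine tsum_congr fun x => ?_
  split_ifs
  · rw [map_mul, hc, Complex.conj_ofReal]
  · exact map_zero _

/-- the sum of all `F χ` is real -/
lemma F_real (u : ℝ) : (∑ χ ∈ irrF (M ≃ₐ[K] M), F χ u) = (((∑ χ ∈ irrF (M ≃ₐ[K] M), F χ u).re : ℝ) : ℂ) := by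
  classical
  have h0 : conj (∑ χ ∈ irrF (M ≃ₐ[K] M), F χ u) = ∑ χ ∈ irrF (M ≃ₐ[K] M), F χ u := by
    unfold F
    rw [Finset.sum_sub_distrib, map_sub]
    congr 1
    · have h1 := Pool.Agent.Q190.NF.ks_sum (K := K) (M := M) (fun _ : {χ // χ ∈ irrF (M ≃ₐ[K] M)} => (1 : ℤ)) (fun χ => χ.1)
        (fun g => ∑ χ ∈ irrF (M ≃ₐ[K] M), χ g) (fun g => by
          simp only [Int.cast_one, one_mul]
          exact (Finset.sum_coe_sort (irrF (M ≃ₐ[K] M)) (fun χ => χ g)).symm) u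
      simp only [Int.cast_one, one_mul] at h1
      rw [Finset.sum_coe_sort (irrF (M ≃ₐ[K] M)) (fun χ => ks {v : HeightOneSpectrum (𝓞 K) | Unramified M v}
        (fun v m => χ (frob M v ^ (m + 1))) u)] at h1
      rw [← h1]
      exact ks_conj _ _ (fun v n => sum_conj _) u
    · rw [map_sum]
      refine Finset.sum_congr rfl fun χ _ => ?_
      split_ifs
      · exact Complex.conj_ofReal _
      · exact map_zero _
  exact (Complex.conj_eq_iff_re.1 h0).symm

lemma fE_real (u : ℝ) : (fE K M u : ℂ) = -∑ χ ∈ irrF (M ≃ₐ[K] M), F χ u := by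
  rw [fE_eq, F_real]
  push_cast
  rw [Complex.ofReal_re]

/-- the data of the product of all L-functions -/
lemma exists_total : ∃ (ι : Type) (_ : Fintype ι) (D : ι → Dat) (n : ι → ℤ),
    (∃ C : ℝ, ∀ u : ℝ, 0 ≤ u → ‖(fE K M u : ℂ) + PP D n u‖ ≤ C * Real.exp (-(u / 4))) ∧
    (ArtinH K M → ∀ a : ℂ, 0 < a.re → 0 ≤ nn D n a) ∧ (ArtinH K M → Hyp D n → AllOff K M) := by
  classical
  obtain ⟨A⟩ : Nonempty (∀ χ : {χ // χ ∈ irrF (M ≃ₐ[K] M)}, ArtD χ.1) := ⟨fun χ => (exists_artD (mem_irrF.1 χ.2)).some⟩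
  have hPP : ∀ u, PP (fun x : (χ : {χ // χ ∈ irrF (M ≃ₐ[K] M)}) × (A χ).ι => (A x.1).D x.2) (fun x => (A x.1).n x.2) u =
      ∑ χ, PP (A χ).D (A χ).n u := by
    intro u
    unfold PP
    rw [Fintype.sum_sigma]
  have hnn : ∀ a, nn (fun x : (χ : {χ // χ ∈ irrF (M ≃ₐ[K] M)}) × (A χ).ι => (A x.1).D x.2) (fun x => (A x.1).n x.2) a =
      ∑ χ, nn (A χ).D (A χ).n a := by
    intro a
    unfold nn
    rw [Fintype.sum_sigma]
  have hpos : ArtinH K M → ∀ (χ : {χ // χ ∈ irrF (M ≃ₐ[K] M)}) (a : ℂ), 0 < a.re → 0 ≤ nn (A χ).D (A χ).n a := by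
    intro hA χ a ha
    have hχ := mem_irrF.1 χ.2
    by_cases h2 : 1 / 2 + a = 1
    · by_cases h3 : ∀ g, χ.1 g = 1
      · have h4 : a = 1 / 2 := by linear_combination h2
        rw [h4]
        exact (triv_half (A χ) h3).ge
      · have h5 := hA χ.1 hχ (1 / 2 + a) (by rw [Complex.add_re]; norm_num; linarith) (fun _ => h3)
        rw [ordL_eq (A χ) hχ (by rw [Complex.add_re]; norm_num; linarith), if_pos h2, if_neg h3, sub_zero] at h5
        rw [show (1 : ℂ) / 2 + a - 1 / 2 = a by ring] at h5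
        exact h5
    · have h5 := hA χ.1 hχ (1 / 2 + a) (by rw [Complex.add_re]; norm_num; linarith) (fun h6 => absurd h6 h2)
      rw [ordL_eq (A χ) hχ (by rw [Complex.add_re]; norm_num; linarith), if_neg h2, sub_zero] at h5
      rw [show (1 : ℂ) / 2 + a - 1 / 2 = a by ring] at h5
      exact h5
  refine ⟨(χ : {χ // χ ∈ irrF (M ≃ₐ[K] M)}) × (A χ).ι, inferInstance, fun x => (A x.1).D x.2, fun x => (A x.1).n x.2, ?_, ?_, ?_⟩
  · choose C hC using fun χ : {χ // χ ∈ irrF (M ≃ₐ[K] M)} => F_close (A χ)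
    refine ⟨∑ χ, C χ, fun u hu => ?_⟩
    rw [fE_real, hPP, ← Finset.sum_coe_sort (irrF (M ≃ₐ[K] M)) (fun χ => F χ u), neg_add_eq_sub, norm_sub_rev,
      ← Finset.sum_sub_distrib, Finset.sum_mul]
    exact (norm_sum_le _ _).trans (Finset.sum_le_sum fun χ _ => hC χ u hu)
  · intro hA a ha
    rw [hnn]
    exact Finset.sum_nonneg fun χ _ => hpos hA χ a ha
  · intro hA h χ hχ
    have h1 : ∀ a : ℂ, 0 < a.re → nn (A ⟨χ, mem_irrF.2 hχ⟩).D (A ⟨χ, mem_irrF.2 hχ⟩).n a = 0 := by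
      intro a ha
      have h2 := h a ha.ne'
      rw [hnn] at h2
      exact (Finset.sum_eq_zero_iff_of_nonneg fun χ _ => hpos hA χ a ha).1 h2 _ (Finset.mem_univ _)
    refine (hyp_iff (A ⟨χ, mem_irrF.2 hχ⟩) hχ).1 fun a ha => ?_
    rcases lt_or_gt_of_ne ha with h2 | h2
    · rw [← nn_conj]
      exact h1 _ (by rw [Complex.neg_re, Complex.conj_re]; linarith)
    · exact h1 a h2

lemma nonneg_of_artin (hA : ArtinH K M) : Nonneg K M := by
  intro χ hχ t
  refine hA χ hχ _ (by simp) fun h => ?_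
  have := congrArg Complex.re h
  norm_num at this

/-- `fE` is bounded -/
lemma fE_bdd (hO : AllOff K M) (hN : Nonneg K M) : ∃ C : ℝ, ∀ u : ℝ, 0 ≤ u → |fE K M u| ≤ C := by
  obtain ⟨-, h1, -, C, hC⟩ := apf hO hN
  refine ⟨2 * (∑' γ : ℝ, (((tot K M γ).toNat : ℕ) : ℝ) / (1 + γ ^ 2)) + |C|, fun u hu => ?_⟩
  have h2 := hC u hu
  have h3 : ‖∑' γ : ℝ, (((((tot K M γ).toNat : ℕ) : ℝ) * (2 / (1 + γ ^ 2)) : ℝ) : ℂ) * cexp (I * γ * u)‖ ≤
      2 * (∑' γ : ℝ, (((tot K M γ).toNat : ℕ) : ℝ) / (1 + γ ^ 2)) := by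
    rw [← tsum_mul_left]
    refine tsum_of_norm_bounded (h1.mul_left 2).hasSum fun γ => ?_
    rw [norm_mul, Complex.norm_real, Complex.norm_exp]
    have h4 : (I * (γ : ℂ) * (u : ℂ)).re = 0 := by simp
    rw [h4, Real.exp_zero, mul_one, Real.norm_of_nonneg (by positivity)]
    exact le_of_eq (by ring)
  have h4 : C * Real.exp (-(u / 4)) ≤ |C| := by
    have h5 : Real.exp (-(u / 4)) ≤ 1 := Real.exp_le_one_iff.2 (by linarith)
    calc C * Real.exp (-(u / 4)) ≤ |C| * 1 := mul_le_mul (le_abs_self _) h5 (Real.exp_pos _).le (abs_nonneg _)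
      _ = |C| := mul_one _
  have h5 : |fE K M u| = ‖(fE K M u : ℂ)‖ := by rw [Complex.norm_real, Real.norm_eq_abs]
  rw [h5]
  have h6 := norm_add_le ((fE K M u : ℂ) - ∑' γ : ℝ, (((((tot K M γ).toNat : ℕ) : ℝ) * (2 / (1 + γ ^ 2)) : ℝ) : ℂ) * cexp (I * γ * u))
    (∑' γ : ℝ, (((((tot K M γ).toNat : ℕ) : ℝ) * (2 / (1 + γ ^ 2)) : ℝ) : ℂ) * cexp (I * γ * u))
  rw [sub_add_cancel] at h6
  linarith

/-- **the Riemann hypothesis from one bounded mean, given Artin's conjecture** -/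
theorem off_iff_exp (hA : ArtinH K M) {lam : ℝ} (h0 : 0 < lam) : AllOff K M ↔ ∃ C : ℝ, ∀ᶠ U : ℝ in atTop, ME K M lam U ≤ C := by
  constructor
  · intro hO
    obtain ⟨C, hC⟩ := fE_bdd hO (nonneg_of_artin hA)
    refine ⟨Real.exp (lam * C), ?_⟩
    filter_upwards [eventually_gt_atTop 0] with U hU
    unfold ME
    have h1 : ∫ u in (0 : ℝ)..U, Real.exp (lam * fE K M u) ≤ ∫ u in (0 : ℝ)..U, Real.exp (lam * C) := by
      refine intervalIntegral.integral_mono_on hU.le ?_ (continuous_const.intervalIntegrable _ _) fun u hu => ?_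
      · exact (Real.continuous_exp.comp (continuous_const.mul fE_cont)).intervalIntegrable _ _
      · exact Real.exp_le_exp.2 (mul_le_mul_of_nonneg_left ((le_abs_self _).trans (hC u hu.1)) h0.le)
    rw [intervalIntegral.integral_const, sub_zero, smul_eq_mul] at h1
    calc (1 / U) * ∫ u in (0 : ℝ)..U, Real.exp (lam * fE K M u) ≤ (1 / U) * (U * Real.exp (lam * C)) :=
          mul_le_mul_of_nonneg_left h1 (by positivity)
      _ = Real.exp (lam * C) := by field_simp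
  · intro hb
    obtain ⟨ι, fi, D, n, h1, h2, h3⟩ := exists_total (K := K) (M := M)
    exact h3 hA (Pool.Agent.Q124.NF.le_hyp ι D n (fE K M) lam fE_cont h1 (h2 hA) h0 hb)

/-- the Riemann hypothesis from a bounded mean of the absolute value -/
theorem off_of_abs (hA : ArtinH K M) (hb : ∃ C : ℝ, ∀ᶠ U : ℝ in atTop, ∫ u in (0 : ℝ)..U, |fE K M u| ≤ C * U) : AllOff K M := by
  obtain ⟨ι, fi, D, n, ⟨B, h1⟩, h2, h3⟩ := exists_total (K := K) (M := M)
  refine h3 hA (Pool.Agent.Q184.NF.la' ι D n ?_)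
  obtain ⟨C, hC⟩ := hb
  refine ⟨C + |B|, ?_⟩
  filter_upwards [hC, eventually_gt_atTop 0] with U hU hU0
  have hPc : Continuous (PP D n) := by
    unfold PP Dat.P
    refine continuous_finsetSum _ fun i _ => ?_
    have := (D i).cont
    fun_prop
  have h4 : ∫ u in (0 : ℝ)..U, ‖PP D n u‖ ≤ ∫ u in (0 : ℝ)..U, (|fE K M u| + |B|) := by
    refine intervalIntegral.integral_mono_on hU0.le (hPc.norm.intervalIntegrable _ _) ?_ fun u hu => ?_
    · have := fE_cont (K := K) (M := M)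
      exact (by fun_prop : Continuous fun u => |fE K M u| + |B|).intervalIntegrable _ _
    · have h5 := h1 u hu.1
      have h6 : B * Real.exp (-(u / 4)) ≤ |B| := by
        have h7 : Real.exp (-(u / 4)) ≤ 1 := Real.exp_le_one_iff.2 (by linarith [hu.1])
        calc B * Real.exp (-(u / 4)) ≤ |B| * 1 := mul_le_mul (le_abs_self _) h7 (Real.exp_pos _).le (abs_nonneg _)
          _ = |B| := mul_one _
      have h8 := norm_sub_le ((fE K M u : ℂ) + PP D n u) (fE K M u : ℂ)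
      rw [add_sub_cancel_left, Complex.norm_real (fE K M u), Real.norm_eq_abs] at h8
      linarith
  have h5 : ∫ u in (0 : ℝ)..U, (|fE K M u| + |B|) = (∫ u in (0 : ℝ)..U, |fE K M u|) + |B| * U := by
    have := fE_cont (K := K) (M := M)
    rw [intervalIntegral.integral_add ((by fun_prop : Continuous fun u => |fE K M u|).intervalIntegrable _ _)
      (by simp), intervalIntegral.integral_const, sub_zero, smul_eq_mul]
    ring
  rw [h5] at h4
  linarith

/-- the central orders, without simplicity -/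
lemma central' (hN : Nonneg K M) :
    nMinus K M ≤ (tot K M 0).toNat ∧ ((tot K M 0).toNat = nMinus K M ↔ Cen K M ∧ Sym3 K M) := by
  classical
  have h2 : (nMinus K M : ℤ) = ∑ χ ∈ irrF (M ≃ₐ[K] M), if Sympl χ ∧ Odd (o χ 0) then 1 else 0 := by
    unfold nMinus
    have h3 : {χ : (M ≃ₐ[K] M) → ℂ | χ ∈ Irr (M ≃ₐ[K] M) ∧ Sympl χ ∧ Odd (o χ 0)} =
        (((irrF (M ≃ₐ[K] M)).filter fun χ => Sympl χ ∧ Odd (o χ 0) : Finset _) : Set _) := by
      ext χ
      simp only [Set.mem_ofPred_eq, Finset.coe_filter, mem_irrF]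
    rw [h3, Set.ncard_coe_finset, Finset.card_filter]
    push_cast
    rfl
  have h3 : ((tot K M 0).toNat : ℤ) = ∑ χ ∈ irrF (M ≃ₐ[K] M), o χ 0 := by rw [tot_nat hN, tot_eq]
  have hle : ∀ χ ∈ irrF (M ≃ₐ[K] M), (if Sympl χ ∧ Odd (o χ 0) then (1 : ℤ) else 0) ≤ o χ 0 := by
    intro χ hχ
    have h4 := hN χ (mem_irrF.1 hχ) 0
    split_ifs with h5
    · obtain ⟨k, hk⟩ := h5.2
      omega
    · exact h4
  refine ⟨?_, ?_⟩
  · have : (nMinus K M : ℤ) ≤ ((tot K M 0).toNat : ℤ) := by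
      rw [h2, h3]
      exact Finset.sum_le_sum hle
    exact_mod_cast this
  · have h4 : (tot K M 0).toNat = nMinus K M ↔
        ∀ χ ∈ irrF (M ≃ₐ[K] M), (if Sympl χ ∧ Odd (o χ 0) then (1 : ℤ) else 0) = o χ 0 := by
      rw [← Finset.sum_eq_sum_iff_of_le hle, ← h2, ← h3]
      constructor
      · intro h
        rw [h]
      · intro h
        exact_mod_cast h.symm
    rw [h4]
    constructor
    · intro h
      refine ⟨fun χ hχ hs => ?_, fun χ hχ hs => ?_⟩
      · have h5 := h χ (mem_irrF.2 hχ)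
        rw [if_neg (fun h6 => hs h6.1)] at h5
        exact h5.symm
      · have h5 := h χ (mem_irrF.2 hχ)
        by_cases h6 : Even (o χ 0)
        · rw [if_pos h6]
          rw [if_neg (fun h7 => (Int.not_odd_iff_even.2 h6) h7.2)] at h5
          exact h5.symm
        · rw [if_neg h6]
          rw [if_pos ⟨hs, Int.not_even_iff_odd.1 h6⟩] at h5
          exact h5.symm
    · rintro ⟨hC, hS⟩ χ hχ
      by_cases hs : Sympl χ
      · have h5 := hS χ (mem_irrF.1 hχ) hs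
        by_cases h6 : Even (o χ 0)
        · rw [if_pos h6] at h5
          rw [if_neg (fun h7 => (Int.not_odd_iff_even.2 h6) h7.2), h5]
        · rw [if_neg h6] at h5
          rw [if_pos ⟨hs, Int.not_even_iff_odd.1 h6⟩, h5]
      · rw [if_neg (fun h6 => hs h6.1), hC χ (mem_irrF.1 hχ) hs]

/-- **the exponential mean, given Artin's conjecture** -/
theorem main4 (hA : ArtinH K M) {r : Subgroup (M ≃ₐ[K] M) → ℚ} (hr : Rep K M r) {lam : ℝ} (h0 : 0 < lam) (h8 : lam ≤ 1 / 8) :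
    ((AllOff K M ∧ LI K M ∧ Cen K M ∧ Sym3 K M) ↔
      ∀ ε : ℝ, 0 < ε → ∀ᶠ U : ℝ in atTop, ME K M lam U ≤ RR (circ K M r) lam * gg lam ^ nMinus K M + ε) ∧
    ((AllOff K M ∧ LI K M ∧ Cen K M ∧ Sym3 K M) ↔
      Tendsto (ME K M lam) atTop (𝓝 (RR (circ K M r) lam * gg lam ^ nMinus K M))) ∧
    (AllOff K M → ∀ ε : ℝ, 0 < ε → ∀ᶠ U : ℝ in atTop, RR (circ K M r) lam * gg lam ^ nMinus K M - ε ≤ ME K M lam U) := by
  have hN := nonneg_of_artin hA
  have key : AllOff K M →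
      ((LI K M ∧ Cen K M ∧ Sym3 K M) ↔ ∀ ε : ℝ, 0 < ε → ∀ᶠ U : ℝ in atTop, ME K M lam U ≤ RR (circ K M r) lam * gg lam ^ nMinus K M + ε) ∧
      ((LI K M ∧ Cen K M ∧ Sym3 K M) ↔ Tendsto (ME K M lam) atTop (𝓝 (RR (circ K M r) lam * gg lam ^ nMinus K M))) ∧
      ∀ ε : ℝ, 0 < ε → ∀ᶠ U : ℝ in atTop, RR (circ K M r) lam * gg lam ^ nMinus K M - ε ≤ ME K M lam U := by
    intro hO
    obtain ⟨h1, h2⟩ := central' hN
    obtain ⟨h3, h4, h5⟩ := Pool.Agent.Q129.NF.t_EXPM (fun γ => (tot K M γ).toNat) (fE K M) (circ K M r) lam (nMinus K M)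
      (apf hO hN) (circ_eq hr hO hN) h0 h8 h1
    rw [h2, li_iff hN, and_comm] at h3 h4
    exact ⟨h3, h4, h5⟩
  have bd : (∀ ε : ℝ, 0 < ε → ∀ᶠ U : ℝ in atTop, ME K M lam U ≤ RR (circ K M r) lam * gg lam ^ nMinus K M + ε) → AllOff K M :=
    fun h => (off_iff_exp hA h0).2 ⟨_, h 1 one_pos⟩
  have lim_up : Tendsto (ME K M lam) atTop (𝓝 (RR (circ K M r) lam * gg lam ^ nMinus K M)) →
      ∀ ε : ℝ, 0 < ε → ∀ᶠ U : ℝ in atTop, ME K M lam U ≤ RR (circ K M r) lam * gg lam ^ nMinus K M + ε :=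
    fun h ε hε => (h.eventually_lt_const (by linarith)).mono fun U hU => hU.le
  refine ⟨⟨?_, fun h => ⟨bd h, (key (bd h)).1.2 h⟩⟩, ⟨?_, fun h => ⟨bd (lim_up h), (key (bd (lim_up h))).1.2 (lim_up h)⟩⟩,
    fun h => (key h).2.2⟩
  · rintro ⟨hO, h⟩
    exact (key hO).1.1 h
  · rintro ⟨hO, h⟩
    exact (key hO).2.1.1 h

end

end Pool.Agent.Q253.NF.G
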