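import Pool.Agent.Q253.NF.G7

set_option autoImplicit false
set_option linter.unusedSectionVars false

/-! # Project NF: the Artin L-functions of a Galois extension, eighth part: monomial characters; moments, given Artin's conjecture -/

namespace Pool.Agent.Q253.NF.G

open MeasureTheory Filter Topology Set Complex NumberField IsDedekindDomain
open Pool.Agent.Q92.AR (Unramified frob Continues LP artinL fixer)
open Pool.Agent.Q92.RT (induced)
open Pool.Agent.H541R3.ART (Irr irrF mem_irrF)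
open Pool.Agent.Q253.LQ (I0)
open Pool.Agent.Q253.LM (NoRel IdxM)
open scoped ComplexConjugate

section
variable {K M : Type} [Field K] [NumberField K] [Field M] [NumberField M] [Algebra K M] [IsGalois K M]

/-- Artin's theorem: monomial characters -/
theorem artin_of_mono (h : ∀ χ ∈ Irr (M ≃ₐ[K] M), ∃ (H : Subgroup (M ≃ₐ[K] M)) (ψ : H →* ℂˣ), ∀ g, χ g = induced H ψ g) :
    ArtinH K M := by
  classical
  intro χ hχ s hs h1
  have : Fintype (M ≃ₐ[K] M) := Fintype.ofFinite _
  obtain ⟨H, ψ, hψ⟩ := h χ hχ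
  have hχψ : χ = induced H ψ := funext hψ
  obtain ⟨D, hp, -, ho⟩ := Pool.Agent.Q149.NF.idat Pool.Agent.Q151.NF.t_LTG Pool.Agent.Q31.NF.rayd
    Pool.Agent.Q151.NF.t_ORDL Pool.Agent.Q26.NF.red Pool.Agent.Q262.NF.chd Pool.Agent.Q190.NF.indk K M H ψ
  have hc := (exists_cont hχ).choose_spec
  have h2 : ordL χ s = (D.m (s - 1 / 2) : ℤ) - (if s = 1 then (D.p : ℤ) else 0) := by
    unfold ordL
    rw [dif_pos (exists_cont hχ), ho _ (hχψ ▸ hc) s hs]
    rfl
  rw [h2]
  by_cases hs1 : s = 1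
  · rw [if_pos hs1, hp]
    have h3 : ψ ≠ 1 := by
      intro h4
      refine h1 hs1 ?_
      have h5 := Pool.Agent.Q190.NF.sum_irr hχ
      have h6 : ∑ g, χ g = ∑ g, induced H ψ g := Finset.sum_congr rfl fun g _ => hψ g
      rw [h6, Pool.Agent.Q190.NF.sum_induced, if_pos h4, one_mul] at h5
      by_contra h7
      rw [if_neg h7, zero_mul] at h5
      exact Nat.card_pos.ne' (by exact_mod_cast h5 : Nat.card (M ≃ₐ[K] M) = 0)
    rw [if_neg h3]
    simp
  · rw [if_neg hs1]
    simp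

/-- a bounded moment of even order gives the Riemann hypothesis -/
theorem off_of_moment (hA : ArtinH K M) {k : ℕ} (hk : Even k) (c : ℝ)
    (hb : ∀ᶠ U : ℝ in atTop, (1 / U) * ∫ u in (0 : ℝ)..U, (fE K M u - 2 * tot K M 0) ^ k ≤ c) (hk2 : 2 ≤ k) : AllOff K M := by
  have hcont := fE_cont (K := K) (M := M)
  refine off_of_abs hA ⟨c + 1 + |2 * (tot K M 0 : ℝ)|, ?_⟩
  filter_upwards [hb, eventually_gt_atTop 0] with U hU hU0
  have h1 : ∫ u in (0 : ℝ)..U, |fE K M u| ≤
      ∫ u in (0 : ℝ)..U, ((fE K M u - 2 * tot K M 0) ^ k + (1 + |2 * (tot K M 0 : ℝ)|)) := by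
    refine intervalIntegral.integral_mono_on hU0.le (hcont.abs.intervalIntegrable _ _) ?_ fun u hu => ?_
    · exact (by fun_prop : Continuous fun u => (fE K M u - 2 * tot K M 0) ^ k + (1 + |2 * (tot K M 0 : ℝ)|)).intervalIntegrable _ _
    · set x := fE K M u - 2 * tot K M 0 with hx
      have h2 : |fE K M u| ≤ |x| + |2 * (tot K M 0 : ℝ)| := by
        have h3 : fE K M u = x + 2 * tot K M 0 := by rw [hx]; ring
        rw [h3]
        exact abs_add_le _ _
      have h3 : |x| ≤ x ^ k + 1 := by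
        rw [← hk.pow_abs]
        rcases le_or_gt |x| 1 with h4 | h4
        · have := pow_nonneg (abs_nonneg x) k
          linarith
        · have := le_self_pow₀ h4.le (by omega : k ≠ 0)
          linarith
      linarith
  rw [intervalIntegral.integral_add ((by fun_prop : Continuous fun u => (fE K M u - 2 * tot K M 0) ^ k).intervalIntegrable _ _)
    (by simp), intervalIntegral.integral_const, sub_zero, smul_eq_mul] at h1
  have h2 : ∫ u in (0 : ℝ)..U, (fE K M u - 2 * tot K M 0) ^ k ≤ c * U := by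
    rw [one_div, inv_mul_le_iff₀ hU0] at hU
    linarith
  linarith

/-- **the moments, given Artin's conjecture** -/
theorem main5 (hA : ArtinH K M) {r : Subgroup (M ≃ₐ[K] M) → ℚ} (hr : Rep K M r) {k : ℕ} (hk : Even k) (hk2 : 2 ≤ k) :
    (AllOff K M ∧ NR K M k ∧ ∀ γ : ℝ, 0 < γ → tot K M γ ≤ 1) ↔
      ∀ ε : ℝ, 0 < ε → ∀ᶠ U : ℝ in atTop, MM K M k U ≤ iteratedDeriv k (QQ r) 0 + ε := by
  have hN := nonneg_of_artin hA
  constructor
  · rintro ⟨hO, hR, h1⟩ ε hε
    obtain ⟨-, h2⟩ := main3 hr hO hN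
    obtain ⟨h3, -, -, h4⟩ := h2 k
    rw [h4.2 ⟨hR, fun _ _ => h1⟩] at h3
    exact (h3.eventually_lt_const (lt_add_of_pos_right _ hε)).mono fun U hU => hU.le
  · intro h
    have hO : AllOff K M := off_of_moment hA hk _ (h 1 one_pos) hk2
    obtain ⟨-, h2⟩ := main3 hr hO hN
    obtain ⟨h3, -, h5, h4⟩ := h2 k
    obtain ⟨h6, h7⟩ := h4.1 (le_antisymm (le_of_forall_pos_le_add fun ε hε => le_of_tendsto h3 (h ε hε)) h5)
    exact ⟨hO, h6, h7 hk hk2⟩

end

end Pool.Agent.Q253.NF.G
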