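import Pool.Agent.Q253.NF.Stm
import Pool.Agent.Q92.AR.Stm3
import Pool.Agent.Q92.AR.Def
import Pool.Agent.Q92.AR.ArtL
import Pool.Agent.Y773.HK.Defs

set_option autoImplicit false

/-!
# Project NF (helper253), second part: L-functions of number fields

The L-functions of the project (`Dat`, `Pool/Agent/Q253/NF/Stm.lean`) for primitive ray class characters, for the linear characters of
Galois groups, for the Artin L-functions (integer combinations), and for the Dedekind zeta functions.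

Definitions and jobs.  `q_v = N(v)` is `Ideal.absNorm v.asIdeal`; pairs `x = (v, n)` stand for the prime power `v^(n+1)`.
-/

namespace Pool.Agent.Q253.NF

open MeasureTheory Filter Topology Set Complex NumberField IsDedekindDomain
open Pool.Agent.Q92.AR (Unramified frob Continues LP artinL fixer Pos)
open Pool.Agent.Q92.RT (induced)
open Pool.Agent.H541R3.ART (Irr)
open Pool.Agent.Y773 (LI)
open scoped ComplexConjugate

/-- **Job LTG.** The Laplace transform of sums with the kernel `exp (-|u - l|)`, general index set.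
Proof.  Copy `Pool/Agent/Q14/LQ/Lt.lean` (there `κ = ℕ`, `l n = log n`; only `0 ≤ l` is used); for `integral_tsum_of_summable_integral_norm`
the index set must be countable: restrict to the support of `b`, which is countable by summability (or regroup). -/
def S_LTG : Prop := ∀ (κ : Type) (b : κ → ℂ) (l : κ → ℝ), (∀ k, 0 ≤ l k) →
  (∀ x : ℝ, 1 / 2 < x → Summable (fun k => ‖b k‖ * Real.exp (-(x * l k)))) →
  Continuous (fun u : ℝ => ∑' k, b k * ((Real.exp (-|u - l k|) : ℝ) : ℂ)) ∧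
  ∀ z : ℂ, 1 / 2 < z.re → z ≠ 1 →
    IntegrableOn (fun u : ℝ => (∑' k, b k * ((Real.exp (-|u - l k|) : ℝ) : ℂ)) * cexp (-z * u)) (Ioi 0) ∧
    ∫ u in Ioi (0 : ℝ), (∑' k, b k * ((Real.exp (-|u - l k|) : ℝ) : ℂ)) * cexp (-z * u) =
      2 / (1 - z ^ 2) * (∑' k, b k * cexp (-z * l k)) - 1 / (1 - z) * (∑' k, b k * cexp (-1 * (l k : ℂ)))

section
variable {F : Type} [Field F] [NumberField F]

open Classical in
/-- the sum over the prime powers `v^(n+1)`, `v ∈ P`, of `c(v,n) log q_v q_v^(-(n+1)/2) exp (-|u - (n+1) log q_v|)` -/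
noncomputable def ks (P : Set (HeightOneSpectrum (𝓞 F))) (c : HeightOneSpectrum (𝓞 F) → ℕ → ℂ) (u : ℝ) : ℂ :=
  ∑' x : HeightOneSpectrum (𝓞 F) × ℕ, if x.1 ∈ P then c x.1 x.2 *
    ((Real.log (Ideal.absNorm x.1.asIdeal) *
      Real.exp (-(((x.2 : ℝ) + 1) * Real.log (Ideal.absNorm x.1.asIdeal) / 2)) *
      Real.exp (-|u - ((x.2 : ℝ) + 1) * Real.log (Ideal.absNorm x.1.asIdeal)|) : ℝ) : ℂ) else 0

/-- primitive ray class characters of conductor `𝔣` and signature `e` (the conclusion of `S_Prim`) -/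
structure Prim (𝔣 : Ideal (𝓞 F)) (e : InfinitePlace F → ℕ) (ψ : Ideal (𝓞 F) →*₀ ℂ) : Prop where
  ne_bot : 𝔣 ≠ ⊥
  e_le : ∀ w, e w ≤ 1
  e_complex : ∀ w : InfinitePlace F, w.IsComplex → e w = 0
  supp : ∀ 𝔞 : Ideal (𝓞 F), 𝔞 ≠ ⊥ → (ψ 𝔞 ≠ 0 ↔ IsCoprime 𝔞 𝔣)
  sig : ∀ x : 𝓞 F, x ≠ 0 → x - 1 ∈ 𝔣 → ψ (Ideal.span {x}) =
    ∏ w : InfinitePlace F, (((SignType.sign (w.embedding (x : F)).re : SignType) : ℤ) : ℂ) ^ e w
  prim : ∀ 𝔤 : Ideal (𝓞 F), 𝔤 ∣ 𝔣 → 𝔤 ≠ 𝔣 → ∃ x : 𝓞 F, x - 1 ∈ 𝔤 ∧ Pos (x : F) ∧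
    IsCoprime (Ideal.span {x}) 𝔣 ∧ ψ (Ideal.span {x}) ≠ 1

open Classical in
/-- the Gamma factor -/
noncomputable def gam (e : InfinitePlace F → ℕ) (s : ℂ) : ℂ :=
  ∏ w : InfinitePlace F, if w.IsReal then Gammaℝ (s + e w) else Gammaℂ s

/-- `D` is the L-function of the primitive ray class character `ψ` -/
structure IsDat (𝔣 : Ideal (𝓞 F)) (e : InfinitePlace F → ℕ) (ψ : Ideal (𝓞 F) →*₀ ℂ) (D : Dat) : Prop where
  E : ∀ u, D.E u = ks (univ : Set (HeightOneSpectrum (𝓞 F))) (fun v n => ψ v.asIdeal ^ (n + 1)) u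
  p : D.p = open Classical in if ∀ 𝔞 : Ideal (𝓞 F), 𝔞 ≠ ⊥ → ψ 𝔞 = 1 then 1 else 0
  X : ∃ c : ℂ, c ≠ 0 ∧ ∀ z : ℂ, 1 / 2 < z.re → D.X z = c * (((1 / 2 + z) * (z - 1 / 2)) ^ D.p *
    (((Ideal.absNorm 𝔣 : ℝ) * |(discr F : ℝ)| : ℝ) : ℂ) ^ ((1 / 2 + z) / 2) * gam e (1 / 2 + z) * LI ψ (1 / 2 + z))

end

/-- **Job RAYD.** The L-functions of primitive ray class characters (Hecke).
Proof.  As in `Pool.Agent.Results.MP_873b76_nt.UniformDerivatives.pk_ray` (unramified case `Pool.Agent.Q246.HPk.unr_pk`, ramified case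
`HPk.hecke_pk`, Gamma factors, conductor `absNorm_differentIdeal`; or `Pool.Agent.Q246.Unr.UC.fe` and `Pool.Agent.Y773.FEd` directly)
there is an entire `Λ` with `Λ(1-s) = w conj Λ(conj s)`, `|w| = 1`, `Slow` growth (`UL.slow`), equal to
`(s(s-1))^p (N𝔣|d|)^(s/2) gam e s LI ψ s` for `Re s > 1` (for large `Re s`, then by the identity theorem).  Let `c² = conj w`-type constant,
`|c| = 1`, such that `X(z) = c Λ(1/2+z)` satisfies `X(-conj z) = conj (X z)` (see `Pool.Agent.Q119.HV.cc`, `X_sym`); `gr` from `Slow`;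
`strip`: no zeros for `Re s > 1` (`LI ψ s ≠ 0`, `StDirK` in `Pool/Agent/Y772/DK`, Gamma factors have no zeros), and the symmetry.
`E(u) = ks univ (ψ(v)^(n+1)) u`, `S(z) = ∑_(v,n) ψ(v)^(n+1) log q_v q_v^(-(n+1)(1/2+z))`: `cont` and `lt` from `S_LTG` with
`b = ψ(v)^(n+1) log q_v q_v^(-(n+1)/2)`, `l = (n+1) log q_v` (summability: `Pool.Agent.Q92.AR.summable_geo`, or
`Pool.Agent.Y772.DK.term_summable`; `log q ≤ q^ε/ε`).  `ld`: logarithmic derivative of the formula, `-LI'/LI = S` (differentiate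
`Pool.Agent.Q84.AR.hasSum_dbl`, i.e. `LI = exp (∑ ψ(v)^(n+1)/((n+1) q^((n+1)s)))`, or `StDirK`), `A = log (N𝔣|d|)/2`, `Γ_ℂ(s) = Γ_ℝ(s) Γ_ℝ(s+1)`,
`m0` = number of the complex places and of the real ones with `e w = 0`, `m1` = number of the complex places and of the real
ones with `e w = 1`. -/
def S_RAYD : Prop := S_LTG → ∀ (F : Type) [Field F] [NumberField F] (𝔣 : Ideal (𝓞 F)) (e : InfinitePlace F → ℕ)
  (ψ : Ideal (𝓞 F) →*₀ ℂ), Prim 𝔣 e ψ → ∃ D : Dat, IsDat 𝔣 e ψ D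

/-- **Job ORDL.** The orders of the zeros for `Re s > 0`.
Proof.  With `H(s) = (s (s-1))^p (N𝔣|d|)^(s/2) gam e s` (analytic and nonzero for `Re s > 0` except for a zero of order `p` at `s = 1`;
meromorphic on `ℂ`, as `1/Γ_ℝ` and `1/Γ_ℂ` are entire) the function `X(s - 1/2)/(c H(s))` is a meromorphic continuation of `LI ψ`;
`Pool.Agent.Q92.AR.Continues.order_eq`. -/
def S_ORDL : Prop := ∀ (F : Type) [Field F] [NumberField F] (𝔣 : Ideal (𝓞 F)) (e : InfinitePlace F → ℕ)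
  (ψ : Ideal (𝓞 F) →*₀ ℂ) (D : Dat), Prim 𝔣 e ψ → IsDat 𝔣 e ψ D → (∃ f, Continues f (LI ψ)) ∧
  ∀ f : ℂ → ℂ, Continues f (LI ψ) → ∀ s : ℂ, 0 < s.re →
    meromorphicOrderAt f s = (((D.m (s - 1 / 2) : ℤ) - (if s = 1 then (D.p : ℤ) else 0) : ℤ) : WithTop ℤ)

/-- **Job RED.** Finitely many primes do not matter.
Proof.  One prime `v`, `L = log q_v > 0`: `∑_n L e^(-(n+1)L/2) e^(-|u-(n+1)L|)`, `u ≥ 0`: the terms with `(n+1) L ≤ u` give
`e^(-u) ∑ L e^((n+1)L/2) ≤ C e^(-u/2)`, the others `e^u ∑ L e^(-3(n+1)L/2) ≤ C e^(-u/2)` (compare `Pool/Agent/Q14/LQ/EF4.lean`, or bound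
`e^(-|u-v|) ≤ e^(-u/4) e^(v/4)` for `v ≥ 0`: then it is one line).  The full sums converge absolutely. -/
def S_RED : Prop := ∀ (F : Type) [Field F] [NumberField F] (P Q : Set (HeightOneSpectrum (𝓞 F)))
  (c c' : HeightOneSpectrum (𝓞 F) → ℕ → ℂ) (B : ℝ), (P \ Q).Finite → (Q \ P).Finite → (∀ v n, ‖c v n‖ ≤ B) →
  (∀ v n, ‖c' v n‖ ≤ B) → (∀ v ∈ P ∩ Q, ∀ n, c v n = c' v n) →
  ∃ C : ℝ, ∀ u : ℝ, 0 ≤ u → ‖ks P c u - ks Q c' u‖ ≤ C * Real.exp (-(u / 4))

/-- **Job CHD.** The L-functions of the linear characters of Galois groups.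
Proof.  `Pool.Agent.Q92.AR.recip` (Artin's reciprocity) gives `N ≠ 0` with `art ψ (prin x) = 0` on `Ray F N`; as in
`Pool/Agent/Q84/AR/Hecke.lean` (`psi`, there for the character `art ψ` of `Dv F`) and `Pool.Agent.Q264.AR.prim : S_Prim` there is a primitive
character `ψ'`, `Prim 𝔣 e ψ'`, with `ψ' v = ψ (frob M v)` for `v ∤ N` (`art_single`).  `S_RAYD` gives `D`.  `ψ'` is trivial iff
`ψ = 1`: if `ψ' = 1` then `ψ (frob M v) = 1` for almost all `v`, and every element of the group is a Frobenius element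
(`Pool.Agent.Q14.AR.cheb : S_Cheb`, or the density theorem used for it); conversely `ψ' v = 1` for all `v ∤ N` and primitivity
(`𝔣 = ⊤`, by `prim` with `𝔤 = ⊤` and multiplicativity: the `x ≡ 1 mod 𝔤` prime to `𝔣 N`; or compare the orders of the poles at
`s = 1` with the Dedekind zeta function).  Second part: `S_RED`.  Third part: `S_ORDL` and `Pool.Agent.Q92.AR.LP_compare`
(`LI ψ' = LP univ ψ'` for `Re s > 1`, `hasSum_dbl` in `Pool/Agent/Q84/AR/Hecke.lean`). -/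
def S_CHD : Prop := S_LTG → S_RAYD → S_ORDL → S_RED →
  ∀ (F M : Type) [Field F] [NumberField F] [Field M] [NumberField M] [Algebra F M] [IsGalois F M]
  (ψ : (M ≃ₐ[F] M) →* ℂˣ), ∃ D : Dat, (D.p = open Classical in if ψ = 1 then 1 else 0) ∧
  (∀ P : Set (HeightOneSpectrum (𝓞 F)), Pᶜ.Finite → ∃ C : ℝ, ∀ u : ℝ, 0 ≤ u →
    ‖ks P (fun w n => ((ψ (frob M w) : ℂˣ) : ℂ) ^ (n + 1)) u - D.E u‖ ≤ C * Real.exp (-(u / 4))) ∧
  (∀ P : Set (HeightOneSpectrum (𝓞 F)), Pᶜ.Finite → ∀ f : ℂ → ℂ,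
    Continues f (LP P (fun w => ((ψ (frob M w) : ℂˣ) : ℂ))) → ∀ s : ℂ, 0 < s.re →
    meromorphicOrderAt f s = (((D.m (s - 1 / 2) : ℤ) - (if s = 1 then (D.p : ℤ) else 0) : ℤ) : WithTop ℤ))

/-- **Job INDK.** Inductivity of the prime sums.
Proof.  As `Pool.Agent.Q92.AR.artinL_induced` (file `Pool/Agent/Q92/AR/ArtL.lean`): `induced_frob` gives
`induced ψ (frob_v^(n+1)) = ∑_{w | v, f_w | n+1} f_w ψ'(frob_w)^((n+1)/f_w)`, and `q_w = q_v^(f_w)`, so `f_w log q_v = log q_w` and the terms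
`(w, m)`, `m + 1 = (n+1)/f_w`, have `(m+1) log q_w = (n+1) log q_v`; both sums converge absolutely. -/
def S_INDK : Prop := ∀ (K F M : Type) [Field K] [NumberField K] [Field F] [NumberField F] [Field M] [NumberField M]
  [Algebra K F] [Algebra K M] [Algebra F M] [IsScalarTower K F M] [IsGalois K M] [IsGalois F M]
  (ψ : fixer K F M →* ℂˣ) (ψ' : (M ≃ₐ[F] M) →* ℂˣ),
  (∀ (y : M ≃ₐ[F] M) (hy : y.restrictScalars K ∈ fixer K F M), ψ ⟨y.restrictScalars K, hy⟩ = ψ' y) →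
  ∀ u : ℝ, ks {v : HeightOneSpectrum (𝓞 K) | Unramified M v} (fun v n => induced (fixer K F M) ψ (frob M v ^ (n + 1))) u =
    ks {w : HeightOneSpectrum (𝓞 F) | Unramified M (w.under (𝓞 K))} (fun w n => ((ψ' (frob M w) : ℂˣ) : ℂ) ^ (n + 1)) u

/-- **Job IDAT.** The functions induced by the linear characters of the subgroups.
Proof.  `F = IntermediateField.fixedField H`; as `Pool.Agent.Q92.AR.hol` and `hol_field` (file `Pool/Agent/Q92/AR/Fin.lean`), from `S_CHD`,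
`S_INDK`, `artinL_induced`, `ramified_above_finite`. -/
def S_IDAT : Prop := S_LTG → S_RAYD → S_ORDL → S_RED → S_CHD → S_INDK →
  ∀ (K M : Type) [Field K] [NumberField K] [Field M] [NumberField M] [Algebra K M] [IsGalois K M]
  (H : Subgroup (M ≃ₐ[K] M)) (ψ : H →* ℂˣ), ∃ D : Dat, (D.p = open Classical in if ψ = 1 then 1 else 0) ∧
  (∃ C : ℝ, ∀ u : ℝ, 0 ≤ u → ‖ks {v : HeightOneSpectrum (𝓞 K) | Unramified M v}
    (fun v n => induced H ψ (frob M v ^ (n + 1))) u - D.E u‖ ≤ C * Real.exp (-(u / 4))) ∧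
  (∀ f : ℂ → ℂ, Continues f (artinL M (induced H ψ)) → ∀ s : ℂ, 0 < s.re →
    meromorphicOrderAt f s = (((D.m (s - 1 / 2) : ℤ) - (if s = 1 then (D.p : ℤ) else 0) : ℤ) : WithTop ℤ))

/-- **Job ARTD.** The Artin L-functions as integer combinations.
Proof.  Brauer's theorem `Pool.Agent.Q92.AR.brauer : S_Brauer` and `S_IDAT`; `ks` is linear in the coefficients; `artinL_sum_int` and
the orders of products; `∑ n_i p_i = ∑ n_i ⟨ψ_i, 1⟩ = ∑ n_i ⟨induced ψ_i, 1⟩ = ⟨χ, 1⟩` (`∑_g induced H ψ g = #G` if `ψ = 1`, else `0`). -/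
def S_ARTD : Prop := S_LTG → S_RAYD → S_ORDL → S_RED → S_CHD → S_INDK → S_IDAT →
  ∀ (K M : Type) [Field K] [NumberField K] [Field M] [NumberField M] [Algebra K M] [IsGalois K M],
  ∀ χ ∈ Irr (M ≃ₐ[K] M), ∃ (ι : Type) (_ : Fintype ι) (D : ι → Dat) (n : ι → ℤ),
  (∑ i, n i * ((D i).p : ℤ) = open Classical in if ∀ g, χ g = 1 then 1 else 0) ∧
  (∃ C : ℝ, ∀ u : ℝ, 0 ≤ u → ‖ks {v : HeightOneSpectrum (𝓞 K) | Unramified M v} (fun v n => χ (frob M v ^ (n + 1))) u -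
    ∑ i, (n i : ℂ) * (D i).E u‖ ≤ C * Real.exp (-(u / 4))) ∧
  (∀ f : ℂ → ℂ, Continues f (artinL M χ) → ∀ s : ℂ, 0 < s.re →
    meromorphicOrderAt f s = ((nn D n (s - 1 / 2) - (if s = 1 then ∑ i, n i * ((D i).p : ℤ) else 0) : ℤ) : WithTop ℤ))

/-- the completed Dedekind zeta function times `s (s - 1)`, for `Re s > 1` -/
noncomputable def xiF (E : Type) [Field E] [NumberField E] (s : ℂ) : ℂ :=
  s * (s - 1) * ((|(discr E : ℝ)| : ℝ) : ℂ) ^ (s / 2) * Gammaℝ s ^ InfinitePlace.nrRealPlaces E *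
    Gammaℂ s ^ InfinitePlace.nrComplexPlaces E * dedekindZeta E s

/-- **Job DED.** The Dedekind zeta functions.
Proof.  `S_RAYD`, `S_ORDL` for the trivial character `𝔣 = ⊤`, `e = 0`, `ψ 𝔞 = 1` for `𝔞 ≠ ⊥`; `LI ψ = dedekindZeta E` for `Re s > 1`.
The last part: `X z = c xiF (1/2+z)` is `c` times a real number for real `z > 1/2`, so the entire functions `X z / c` and
`conj (X (conj z) / c)` agree; with `sym` this gives `X (-z) = ε X z`, `ε = conj c / c`, so `m(-a) = m(a)`. -/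
def S_DED : Prop := S_LTG → S_RAYD → S_ORDL → ∀ (E : Type) [Field E] [NumberField E], ∃ D : Dat, D.p = 1 ∧
  (∀ u, D.E u = ks (univ : Set (HeightOneSpectrum (𝓞 E))) (fun _ _ => 1) u) ∧
  (∃ c : ℂ, c ≠ 0 ∧ ∀ z : ℂ, 1 / 2 < z.re → D.X z = c * xiF E (1 / 2 + z)) ∧
  (∃ f, Continues f (dedekindZeta E)) ∧
  (∀ f : ℂ → ℂ, Continues f (dedekindZeta E) → ∀ s : ℂ, 0 < s.re →
    meromorphicOrderAt f s = (((D.m (s - 1 / 2) : ℤ) - (if s = 1 then 1 else 0) : ℤ) : WithTop ℤ)) ∧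
  (∃ ε : ℂ, ε ≠ 0 ∧ ∀ z : ℂ, D.X (-z) = ε * D.X z) ∧ ∀ a : ℂ, D.m (-a) = D.m a

/-- **Job SUMR.** A linear relation between characters is a relation between the orders of their L-functions.
Proof.  Multiply by the common denominator: integers `r i`.  `∏_i artinL M (θ i)^(r i) = 1` for `Re s > 1` (`artinL_sum_int`, `artinL` of
the zero function is `1`); the product of the continuations `f i ^ r i` is a continuation of `1`
(`Continues.order_eq`); orders of products; all orders are finite (`Continues.order_ne_top`, `artinL_ne_zero`). -/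
def S_SUMR : Prop := ∀ (K M : Type) [Field K] [NumberField K] [Field M] [NumberField M] [Algebra K M] [IsGalois K M]
  (ι : Type) [Fintype ι] (θ : ι → (M ≃ₐ[K] M) → ℂ) (r : ι → ℚ) (f : ι → ℂ → ℂ) (o : ι → ℤ) (s : ℂ),
  (∀ g, ∑ i, (r i : ℂ) * θ i g = 0) → (∀ i, Continues (f i) (artinL M (θ i))) →
  (∀ i, meromorphicOrderAt (f i) s = (o i : WithTop ℤ)) → ∑ i, r i * (o i : ℚ) = 0

/-- **Job PERM.** The permutation characters.
Proof.  `E = IntermediateField.fixedField H`.  `artinL_induced` for the trivial character, `LP_compare`, `dedekindZeta E = LP univ 1` for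
`Re s > 1` (see `Pool.Agent.Q92.AR.lin_bot` and its proof for `H = ⊥`); so the orders for `Re s > 0` agree with those of the
Dedekind zeta function. -/
def S_PERM : Prop := ∀ (K M : Type) [Field K] [NumberField K] [Field M] [NumberField M] [Algebra K M] [IsGalois K M]
  (H : Subgroup (M ≃ₐ[K] M)) (f g : ℂ → ℂ), Continues f (artinL M (induced H (1 : H →* ℂˣ))) →
  Continues g (dedekindZeta (IntermediateField.fixedField H)) → ∀ s : ℂ, 0 < s.re →
    meromorphicOrderAt f s = meromorphicOrderAt g s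

end Pool.Agent.Q253.NF
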