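import Pool.Agent.Q253.NF.Stm

set_option autoImplicit false

/-!
# Project NF (helper253), fourth part: one-sided exponential means exclude zeros off the line
-/

namespace Pool.Agent.Q253.NF

open MeasureTheory Filter Topology Set Complex
open scoped ComplexConjugate

/-- **Job LE.** Bounded exponential means exclude zeros off the line, if there are no poles.
Proof.  As `Pool.Agent.Q184.NF.la'` (file `Pool/Agent/Q184/NF/LA.lean`: `lc`, `lc_diff`, `lc_PP`, `Phi`, `ident`, `res_sum`), with Landau's lemma.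
Let `g = max f 0 ≤ exp (lam f)/lam`, so `∫_0^U g ≤ C' U` for large `U`, and `G₁(z) = ∫_0^∞ g(u) e^(-zu) du` is analytic for `Re z > 0`.
`h = g - f ≥ 0` is continuous; `|f| ≤ C e^(u(1/2+ε))` for every `ε > 0` (or use only `Re z > 1`, `Dat.lt`), and for `Re z > 1`
`∫ h e^(-zu) du = G₁(z) + ∫ PP e^(-zu) du - ∫ r e^(-zu) du`, `r = f + PP`, `|r| ≤ C e^(-u/4)`.
`∫ PP e^(-zu) du` is given by `lc_PP`: up to the factor `2/(1-z²)` and functions analytic for `Re z > 0` it is
`-∑ n_i logDeriv (D i).X z`, meromorphic for `Re z > 0`; it has a simple pole of residue `-n(a) 2/(1-a²)` at the points `a` with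
`n(a) = nn D n a ≠ 0`, `0 < Re a ≤ 1/2`, and is analytic at all other points with `Re z > 0` (also at `z = 1`).  Landau: let `σ ≥ 0` be the
infimum of the `x > 0` with `∫ h e^(-xu) du < ∞`.  Suppose `σ > 0`.  If the meromorphic function `H = G₁ + ∫ PP - ∫ r` were analytic at
`z = σ`, then by Landau's lemma (search the package for `landau`; e.g. `Pool.Agent.Q14.LQ`, `Pool.Agent.Q260`, `Pool.Agent.Q119.HV` have one for Laplace transforms of
nonnegative functions; it is used in the proof of `MP_9f0eeb_nt.OneInequalityForPrimes` part (1), file `Pool/Agent/Q253/LQ/F*.lean`, `Pool/Agent/Q14/LQ/LA*.lean`)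
the integral would converge for some `x < σ`.  So `σ ≤ 1/2` is real with `n(σ) ≠ 0`, hence `n(σ) > 0`, and
`H(x) = -n(σ) (2/(1-σ²))/(x-σ) + O(1) → -∞` for `x ↓ σ`, but `H(x) = ∫ h e^(-xu) du ≥ 0` for `x > σ`: contradiction.  So `σ = 0`, `H` is analytic
for `Re z > 0`, and all residues vanish: `nn D n a = 0` for `Re a > 0`.  For `Re a < 0`: `nn D n (-conj a) = nn D n a`
(`Pool.Agent.Q253.NF.G.m_conj`, file `Pool/Agent/Q253/NF/G1.lean`, or as in `Pool.Agent.Q184.NF.nn_neg`). -/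
def S_LE : Prop := ∀ (ι : Type) [Fintype ι] (D : ι → Dat) (n : ι → ℤ) (f : ℝ → ℝ) (lam : ℝ), Continuous f →
  (∃ C : ℝ, ∀ u : ℝ, 0 ≤ u → ‖(f u : ℂ) + PP D n u‖ ≤ C * Real.exp (-(u / 4))) →
  (∀ a : ℂ, 0 < a.re → 0 ≤ nn D n a) → 0 < lam →
  (∃ C : ℝ, ∀ᶠ U : ℝ in atTop, (1 / U) * ∫ u in (0 : ℝ)..U, Real.exp (lam * f u) ≤ C) → Hyp D n

end Pool.Agent.Q253.NF
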